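import Mathlib

/-!
# A smoothing inequality of Esseen type
-/

open Filter Topology MeasureTheory Set

namespace Pool.Agent.Y938.Dc

/-- the kernel -/
noncomputable def kk (x : ℝ) : ℝ := ∫ t in (0:ℝ)..1, (1 - t) * Real.cos (t * x)

lemma kk_eq {x : ℝ} (hx : x ≠ 0) : kk x = (1 - Real.cos x) / x ^ 2 := by
  unfold kk
  have h1 : ∀ t ∈ Set.uIcc (0:ℝ) 1, HasDerivAt
      (fun t => (1 - t) * Real.sin (t * x) / x - Real.cos (t * x) / x ^ 2)
      ((1 - t) * Real.cos (t * x)) t := by
    intro t _
    have e1 : HasDerivAt (fun t : ℝ => t * x) x t := by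
      simpa using (hasDerivAt_id t).mul_const x
    have e2 : HasDerivAt (fun t : ℝ => Real.sin (t * x)) (Real.cos (t * x) * x) t := e1.sin
    have e3 : HasDerivAt (fun t : ℝ => Real.cos (t * x)) (-Real.sin (t * x) * x) t := e1.cos
    have e4 : HasDerivAt (fun t : ℝ => 1 - t) (-1) t := by
      simpa using (hasDerivAt_id t).const_sub 1
    have e5 := ((e4.mul e2).div_const x).sub (e3.div_const (x ^ 2))
    refine e5.congr_deriv ?_
    field_simp
    ring
  rw [intervalIntegral.integral_eq_sub_of_hasDerivAt h1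
    (Continuous.intervalIntegrable (by fun_prop) _ _)]
  simp only [sub_self, zero_mul, one_mul, zero_div, Real.sin_zero, mul_zero, Real.cos_zero, sub_zero]
  ring

lemma kk_zero : kk 0 = 1/2 := by
  unfold kk
  have h1 : ∀ t ∈ Set.uIcc (0:ℝ) 1, HasDerivAt (fun t : ℝ => t - t ^ 2 / 2) ((1 - t) * Real.cos (t * 0)) t := by
    intro t _
    have e5 := ((hasDerivAt_id t).sub ((hasDerivAt_pow 2 t).div_const 2))
    refine e5.congr_deriv ?_
    norm_num
  rw [intervalIntegral.integral_eq_sub_of_hasDerivAt h1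
    (Continuous.intervalIntegrable (by fun_prop) _ _)]
  norm_num

lemma kk_nonneg (x : ℝ) : 0 ≤ kk x := by
  by_cases hx : x = 0
  · rw [hx, kk_zero]; norm_num
  · rw [kk_eq hx]
    apply div_nonneg
    · linarith [Real.cos_le_one x]
    · positivity

lemma kk_le_half (x : ℝ) : kk x ≤ 1/2 := by
  by_cases hx : x = 0
  · rw [hx, kk_zero]
  · rw [kk_eq hx, div_le_iff₀ (by positivity)]
    have := Real.one_sub_sq_div_two_le_cos (x := x)
    linarith

lemma kk_le (x : ℝ) : kk x ≤ 4 * (1 + x ^ 2)⁻¹ := by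
  rcases le_or_gt (x ^ 2) 1 with h | h
  · refine (kk_le_half x).trans ?_
    rw [← div_eq_mul_inv, le_div_iff₀ (by positivity)]
    linarith
  · have hx : x ≠ 0 := by rintro rfl; norm_num at h
    rw [kk_eq hx, ← div_eq_mul_inv, div_le_div_iff₀ (by positivity) (by positivity)]
    have h1 : 1 - Real.cos x ≤ 2 := by linarith [Real.neg_one_le_cos x]
    have h2 : 0 ≤ 1 - Real.cos x := by linarith [Real.cos_le_one x]
    nlinarith

lemma kk_cont : Continuous kk := by
  unfold kk
  apply intervalIntegral.continuous_parametric_intervalIntegral_of_continuous'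
  fun_prop

lemma kk_int : Integrable kk := by
  apply Integrable.mono' (integrable_inv_one_add_sq.const_mul 4) kk_cont.aestronglyMeasurable
  filter_upwards with x
  rw [Real.norm_eq_abs, abs_of_nonneg (kk_nonneg x)]
  exact kk_le x

/-- the total mass -/
noncomputable def k0 : ℝ := ∫ x, kk x

lemma k0_pos : 0 < k0 := by
  unfold k0
  rw [integral_pos_iff_support_of_nonneg kk_nonneg kk_int]
  have h1 : IsOpen (Function.support kk) := kk_cont.isOpen_support
  exact h1.measure_pos _ ⟨0, by rw [Function.mem_support, kk_zero]; norm_num⟩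

/-- the cut-off point -/
lemma exists_cut : ∃ a : ℝ, 0 < a ∧ (3/4) * k0 ≤ ∫ v in Icc (-a) a, kk v := by
  have h1 : Tendsto (fun i : ℝ => ∫ x in (-i)..i, kk x) atTop (𝓝 k0) :=
    intervalIntegral_tendsto_integral kk_int tendsto_neg_atTop_atBot tendsto_id
  have h2 : (3/4) * k0 < k0 := by have := k0_pos; linarith
  obtain ⟨a, ha, ha0⟩ := ((h1.eventually (lt_mem_nhds h2)).and (eventually_gt_atTop 0)).exists
  refine ⟨a, ha0, ?_⟩
  rw [intervalIntegral.integral_of_le (by linarith), ← integral_Icc_eq_integral_Ioc] at ha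
  exact ha.le

/-- the lower bound for a smoothed difference -/
lemma smooth_lower {h : ℝ → ℝ} (hm : Measurable h) {Δ m a : ℝ} (hb : ∀ v, |h v| ≤ Δ)
    (hc : ∀ v ∈ Icc (-a) a, m ≤ h v) : (m + Δ) * (∫ v in Icc (-a) a, kk v) - Δ * k0 ≤ ∫ v, kk v * h v := by
  have hΔ : 0 ≤ Δ := (abs_nonneg _).trans (hb 0)
  have hi : Integrable (fun v => kk v * h v) := by
    have := kk_int.mul_bdd (c := Δ) hm.aestronglyMeasurable (Eventually.of_forall (fun v => by rw [Real.norm_eq_abs]; exact hb v))
    exact this
  have hi2 : Integrable (fun v => (Icc (-a) a).indicator (fun v => (m + Δ) * kk v) v - Δ * kk v) :=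
    ((kk_int.const_mul _).indicator measurableSet_Icc).sub (kk_int.const_mul _)
  have h1 : ∫ v, ((Icc (-a) a).indicator (fun v => (m + Δ) * kk v) v - Δ * kk v) ≤ ∫ v, kk v * h v := by
    apply integral_mono hi2 hi
    intro v
    beta_reduce
    have hk := kk_nonneg v
    have h2 := (abs_le.mp (hb v)).1
    by_cases hv : v ∈ Icc (-a) a
    · rw [indicator_of_mem hv]
      have := hc v hv
      nlinarith
    · rw [indicator_of_notMem hv]
      nlinarith
  rw [integral_sub ((kk_int.const_mul _).indicator measurableSet_Icc) (kk_int.const_mul _),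
    integral_indicator measurableSet_Icc, integral_const_mul, integral_const_mul] at h1
  exact h1

/-- the smoothing inequality -/
theorem smoothing : ∃ C : ℝ, 0 < C ∧ ∀ (F G : ℝ → ℝ) (A b B T : ℝ), Monotone F → Monotone G →
    (∀ x, 0 ≤ F x ∧ F x ≤ 1) → (∀ x, 0 ≤ G x ∧ G x ≤ 1) → 0 ≤ A → 0 ≤ b → 0 < T →
    (∀ x y, x ≤ y → G y - G x ≤ A * (y - x) + b) →
    (∀ x, |∫ v, kk v * (F (x - v / T) - G (x - v / T))| ≤ B) →
    ∀ x, |F x - G x| ≤ C * (B + A / T + b) := by
  obtain ⟨a, ha, hcut⟩ := exists_cut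
  have hk0 := k0_pos
  set ka : ℝ := ∫ v in Icc (-a) a, kk v with hka
  have hka0 : 0 < ka := by linarith
  have hkk : ka ≤ k0 := by
    unfold k0
    exact setIntegral_le_integral kk_int (Eventually.of_forall kk_nonneg)
  refine ⟨3/2 * (1 / ka + 2 * a + 1), by positivity, ?_⟩
  intro F G A b B T hF hG hF01 hG01 hA hb hT hGL hB
  have hB0 : 0 ≤ B := (abs_nonneg _).trans (hB 0)
  have hbd : ∀ x, |F x - G x| ≤ 1 := by
    intro x
    rw [abs_le]
    constructor <;> linarith [(hF01 x).1, (hF01 x).2, (hG01 x).1, (hG01 x).2]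
  set Δ : ℝ := sSup (Set.range fun x => |F x - G x|) with hΔ
  have hbdd : BddAbove (Set.range fun x => |F x - G x|) := ⟨1, by rintro _ ⟨x, rfl⟩; exact hbd x⟩
  have hle : ∀ x, |F x - G x| ≤ Δ := fun x => le_csSup hbdd ⟨x, rfl⟩
  have hΔ0 : 0 ≤ Δ := (abs_nonneg _).trans (hle 0)
  set c : ℝ := 2 * a * (A / T) + b with hc
  have hmeas : ∀ x, Measurable (fun v => F (x - v / T) - G (x - v / T)) := by
    intro x
    exact (hF.measurable.comp (by fun_prop)).sub (hG.measurable.comp (by fun_prop))
  have key : ∀ x0, |F x0 - G x0| ≤ B / ka + c + Δ / 3 := by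
    intro x0
    have hfin : ∀ d : ℝ, (d - c + Δ) * ka - Δ * k0 ≤ B → d ≤ B / ka + c + Δ / 3 := by
      intro d h
      have h1 : (d - c) * ka ≤ B + Δ * (k0 - ka) := by nlinarith
      have h2 : Δ * (k0 - ka) ≤ Δ / 3 * ka := by
        have : k0 - ka ≤ ka / 3 := by linarith
        calc Δ * (k0 - ka) ≤ Δ * (ka / 3) := mul_le_mul_of_nonneg_left this hΔ0
          _ = _ := by ring
      have h3 : (d - c - Δ / 3) * ka ≤ B := by nlinarith
      have h4 : d - c - Δ / 3 ≤ B / ka := by rwa [le_div_iff₀ hka0]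
      linarith
    have hcen : ∀ v ∈ Icc (-a) a, ∀ y z : ℝ, y ≤ z → z ≤ y + 2 * a / T → G z - G y ≤ c := by
      intro v _ y z h1 h2
      refine (hGL y z h1).trans ?_
      have : A * (z - y) ≤ A * (2 * a / T) := mul_le_mul_of_nonneg_left (by linarith) hA
      have e : A * (2 * a / T) = 2 * a * (A / T) := by ring
      linarith
    rw [abs_le]
    constructor
    · -- lower side
      have h1 := smooth_lower (h := fun v => -(F (x0 - a / T - v / T) - G (x0 - a / T - v / T))) (hmeas (x0 - a / T)).neg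
        (Δ := Δ) (m := -(F x0 - G x0) - c) (a := a) (fun v => by rw [abs_neg]; exact hle _) (by
          intro v hv
          have hv1 : v / T ≤ a / T := div_le_div_of_nonneg_right hv.2 hT.le
          have hv2 : -(a / T) ≤ v / T := by rw [← neg_div]; exact div_le_div_of_nonneg_right hv.1 hT.le
          have g1 : F (x0 - a / T - v / T) ≤ F x0 := hF (by linarith)
          have g2 := hcen v hv (x0 - a / T - v / T) x0 (by linarith) (by
            have : 2 * a / T = a / T + a / T := by ring
            linarith)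
          linarith)
      have h2 := hB (x0 - a / T)
      have h3 : ∫ v, kk v * -(F (x0 - a / T - v / T) - G (x0 - a / T - v / T)) ≤ B := by
        have e : (fun v => kk v * -(F (x0 - a / T - v / T) - G (x0 - a / T - v / T))) =
          fun v => -(kk v * (F (x0 - a / T - v / T) - G (x0 - a / T - v / T))) := by funext v; ring
        rw [e, integral_neg]
        linarith [(abs_le.mp h2).1]
      have h4 := hfin (-(F x0 - G x0)) (h1.trans h3)
      linarith
    · have h1 := smooth_lower (h := fun v => (F (x0 + a / T - v / T) - G (x0 + a / T - v / T))) (hmeas (x0 + a / T))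
        (Δ := Δ) (m := (F x0 - G x0) - c) (a := a) (fun v => hle _) (by
          intro v hv
          have hv1 : v / T ≤ a / T := div_le_div_of_nonneg_right hv.2 hT.le
          have hv2 : -(a / T) ≤ v / T := by rw [← neg_div]; exact div_le_div_of_nonneg_right hv.1 hT.le
          have g1 : F x0 ≤ F (x0 + a / T - v / T) := hF (by linarith)
          have g2 := hcen v hv x0 (x0 + a / T - v / T) (by linarith) (by
            have : 2 * a / T = a / T + a / T := by ring
            linarith)
          linarith)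
      have h2 := hB (x0 + a / T)
      have h4 := hfin (F x0 - G x0) (h1.trans (abs_le.mp h2).2)
      exact h4
  have hsup : Δ ≤ B / ka + c + Δ / 3 := by
    apply csSup_le (Set.range_nonempty _)
    rintro _ ⟨x, rfl⟩
    exact key x
  intro x
  refine (hle x).trans ?_
  have hAT : 0 ≤ A / T := by positivity
  have h5 : B / ka + c ≤ (1 / ka + 2 * a + 1) * (B + A / T + b) := by
    have e : B / ka = 1 / ka * B := by ring
    have h6 : 0 ≤ 1 / ka := by positivity
    rw [hc, e]
    nlinarith [mul_nonneg h6 hAT, mul_nonneg h6 hb, mul_nonneg ha.le hB0, mul_nonneg ha.le hb]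
  nlinarith

end Pool.Agent.Y938.Dc
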