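import Mathlib
import Pool.Agent.Y938.Dc.A
import Pool.Agent.H383.AP

/-!
# The smoothing inequality for two empirical distributions
-/

open Filter Topology MeasureTheory Set
open Pool.Agent.H383.AP

namespace Pool.Agent.Y938.Dc

/-- empirical distribution function -/
noncomputable def cdf (e : ℕ → ℝ) (N : ℕ) (x : ℝ) : ℝ := rm (fun n => if e n ≤ x then (1:ℝ) else 0) N

lemma cdf_mono (e : ℕ → ℝ) (N : ℕ) : Monotone (cdf e N) := by
  intro x y h
  apply rm_mono
  intro n
  split_ifs with h1 h2 h2
  · exact le_rfl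
  · exact absurd (h1.trans h) h2
  · exact zero_le_one
  · exact le_rfl

lemma cdf_01 (e : ℕ → ℝ) (N : ℕ) (x : ℝ) : 0 ≤ cdf e N x ∧ cdf e N x ≤ 1 := by
  constructor
  · apply rm_nonneg
    intro n
    split_ifs <;> norm_num
  · refine le_trans (rm_mono (b := fun _ => 1) (fun n => ?_) N) (rm_const_le zero_le_one N)
    split_ifs <;> norm_num

/-- cumulative kernel -/
noncomputable def Hf (s : ℝ) : ℝ := ∫ v in Iic s, kk v

lemma Hf_nonneg (s : ℝ) : 0 ≤ Hf s := setIntegral_nonneg measurableSet_Iic (fun x _ => kk_nonneg x)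

lemma Hf_le (s : ℝ) : Hf s ≤ 4 * (Real.arctan s + Real.pi / 2) := by
  unfold Hf
  rw [← integral_Iic_inv_one_add_sq, ← integral_const_mul]
  exact setIntegral_mono kk_int.integrableOn (integrable_inv_one_add_sq.const_mul 4).integrableOn kk_le

lemma Hf_tendsto : Tendsto Hf atBot (𝓝 0) := by
  have h1 : Tendsto (fun s => 4 * (Real.arctan s + Real.pi / 2)) atBot (𝓝 0) := by
    have h2 : Tendsto Real.arctan atBot (𝓝 (-(Real.pi / 2))) := tendsto_nhds_of_tendsto_nhdsWithin Real.tendsto_arctan_atBot
    have h3 := (h2.add_const (Real.pi / 2)).const_mul 4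
    rw [neg_add_cancel, mul_zero] at h3
    exact h3
  exact squeeze_zero Hf_nonneg Hf_le h1

lemma ind_eq {y x T : ℝ} (hT : 0 < T) : (fun v => kk v * (if y ≤ x - v / T then (1:ℝ) else 0)) =
    (Iic (T * (x - y))).indicator kk := by
  funext v
  have h : y ≤ x - v / T ↔ v ∈ Iic (T * (x - y)) := by
    rw [mem_Iic]
    constructor
    · intro h
      have : v / T ≤ x - y := by linarith
      rwa [div_le_iff₀ hT, mul_comm] at this
    · intro h
      have : v / T ≤ x - y := by rw [div_le_iff₀ hT, mul_comm]; exact h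
      linarith
  by_cases hv : v ∈ Iic (T * (x - y))
  · rw [indicator_of_mem hv, if_pos (h.mpr hv), mul_one]
  · rw [indicator_of_notMem hv, if_neg (fun h' => hv (h.mp h')), mul_zero]

lemma int_cdf (e : ℕ → ℝ) (N : ℕ) {T : ℝ} (hT : 0 < T) (x : ℝ) :
    Integrable (fun v => kk v * cdf e N (x - v / T)) ∧
    ∫ v, kk v * cdf e N (x - v / T) = rm (fun n => Hf (T * (x - e n))) N := by
  have h0 : ∀ n, Integrable (fun v => kk v * (if e n ≤ x - v / T then (1:ℝ) else 0)) := by
    intro n
    rw [ind_eq hT]
    exact kk_int.indicator measurableSet_Iic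
  have h1 : (fun v => kk v * cdf e N (x - v / T)) =
      fun v => (∑ n ∈ Finset.range N, kk v * (if e n ≤ x - v / T then (1:ℝ) else 0)) / N := by
    funext v
    unfold cdf rm
    rw [← Finset.mul_sum, mul_div_assoc]
  rw [h1]
  constructor
  · exact (integrable_finset_sum _ (fun n _ => h0 n)).div_const _
  · rw [integral_div, integral_finset_sum _ (fun n _ => h0 n)]
    unfold rm
    congr 1
    apply Finset.sum_congr rfl
    intro n _
    rw [ind_eq hT, integral_indicator measurableSet_Iic]
    rfl

lemma Hf_sub (s s' : ℝ) : Hf s - Hf s' = ∫ t in (0:ℝ)..1, (1 - t) * ∫ v in s'..s, Real.cos (t * v) := by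
  unfold Hf
  rw [intervalIntegral.integral_Iic_sub_Iic kk_int.integrableOn kk_int.integrableOn]
  unfold kk
  rw [intervalIntegral_intervalIntegral_swap]
  · congr 1
    funext t
    rw [intervalIntegral.integral_const_mul]
  · have hc : Continuous (Function.uncurry fun x t : ℝ => (1 - t) * Real.cos (t * x)) := by
      unfold Function.uncurry; fun_prop
    exact (hc.continuousOn.integrableOn_compact (isCompact_uIcc.prod isCompact_uIcc)).mono_set
      (Set.prod_mono uIoc_subset_uIcc uIoc_subset_uIcc)

/-- the inner integral -/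
noncomputable def CC (e : ℕ → ℝ) (T x' x t : ℝ) (n : ℕ) : ℝ :=
  ∫ v in (T * (x' - e n))..(T * (x - e n)), Real.cos (t * v)

lemma CC_cont (e : ℕ → ℝ) (T x' x : ℝ) (n : ℕ) : Continuous (fun t => CC e T x' x t n) := by
  unfold CC
  apply intervalIntegral.continuous_parametric_intervalIntegral_of_continuous'
  fun_prop

lemma CC_eq (e : ℕ → ℝ) (T x' x : ℝ) {t : ℝ} (ht : t ≠ 0) (n : ℕ) :
    CC e T x' x t n = (Real.sin (t * T * (x - e n)) - Real.sin (t * T * (x' - e n))) / t := by
  unfold CC
  rw [intervalIntegral.integral_comp_mul_left (fun v => Real.cos v) ht, integral_cos, smul_eq_mul]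
  rw [show t * (T * (x - e n)) = t * T * (x - e n) by ring, show t * (T * (x' - e n)) = t * T * (x' - e n) by ring]
  field_simp

/-- averages of sines -/
lemma sin_avg (e : ℕ → ℝ) (N : ℕ) (s x : ℝ) : rm (fun n => Real.sin (s * (x - e n))) N =
    (Complex.exp (((s * x : ℝ) : ℂ) * Complex.I) *
      (starRingEnd ℂ) (cm (fun n => Complex.exp (((s * e n : ℝ) : ℂ) * Complex.I)) N)).im := by
  have h1 : Complex.exp (((s * x : ℝ) : ℂ) * Complex.I) *
      (starRingEnd ℂ) (cm (fun n => Complex.exp (((s * e n : ℝ) : ℂ) * Complex.I)) N) =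
      cm (fun n => Complex.exp (((s * (x - e n) : ℝ) : ℂ) * Complex.I)) N := by
    unfold cm
    rw [map_div₀, map_sum, Complex.conj_natCast, ← mul_div_assoc, Finset.mul_sum]
    congr 1
    apply Finset.sum_congr rfl
    intro n _
    rw [← Complex.exp_conj, ← Complex.exp_add]
    congr 1
    rw [map_mul, Complex.conj_ofReal, Complex.conj_I]
    push_cast; ring
  rw [h1]
  unfold cm rm
  rw [Complex.div_natCast_im, Complex.im_sum]
  congr 1
  apply Finset.sum_congr rfl
  intro n _
  rw [Complex.exp_ofReal_mul_I_im]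

lemma sin_diff {e : ℕ → ℝ} {N N' : ℕ} {s B : ℝ}
    (h : ‖cm (fun n => Complex.exp (((s * e n : ℝ) : ℂ) * Complex.I)) N -
      cm (fun n => Complex.exp (((s * e n : ℝ) : ℂ) * Complex.I)) N'‖ ≤ B) (x : ℝ) :
    |rm (fun n => Real.sin (s * (x - e n))) N - rm (fun n => Real.sin (s * (x - e n))) N'| ≤ B := by
  rw [sin_avg, sin_avg, ← Complex.sub_im, ← mul_sub, ← map_sub]
  refine (Complex.abs_im_le_norm _).trans ?_
  rw [norm_mul, Complex.norm_exp_ofReal_mul_I, one_mul, Complex.norm_conj]
  exact h

/-- the smoothed difference is small -/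
theorem smooth_small {e : ℕ → ℝ} {N N' : ℕ} {T Ξ : ℝ} (hT : 0 < T) (hΞ : 0 ≤ Ξ)
    (h : ∀ s : ℝ, 0 < s → s ≤ T → ‖cm (fun n => Complex.exp (((s * e n : ℝ) : ℂ) * Complex.I)) N -
      cm (fun n => Complex.exp (((s * e n : ℝ) : ℂ) * Complex.I)) N'‖ ≤ Ξ * s) (x : ℝ) :
    |∫ v, kk v * (cdf e N (x - v / T) - cdf e N' (x - v / T))| ≤ 2 * Ξ * T := by
  -- the smoothed difference
  set D : ℝ → ℝ := fun x => rm (fun n => Hf (T * (x - e n))) N - rm (fun n => Hf (T * (x - e n))) N' with hD
  have hDx : ∀ x, ∫ v, kk v * (cdf e N (x - v / T) - cdf e N' (x - v / T)) = D x := by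
    intro x
    obtain ⟨i1, e1⟩ := int_cdf e N hT x
    obtain ⟨i2, e2⟩ := int_cdf e N' hT x
    rw [hD]
    beta_reduce
    rw [← e1, ← e2, ← integral_sub i1 i2]
    congr 1
    funext v
    ring
  rw [hDx]
  have hdiff : ∀ x', |D x - D x'| ≤ 2 * Ξ * T := by
    intro x'
    have hrm : ∀ K : ℕ, rm (fun n => Hf (T * (x - e n))) K - rm (fun n => Hf (T * (x' - e n))) K =
        ∫ t in (0:ℝ)..1, (1 - t) * rm (fun n => CC e T x' x t n) K := by
      intro K
      have e1 : rm (fun n => Hf (T * (x - e n))) K - rm (fun n => Hf (T * (x' - e n))) K =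
          (∑ n ∈ Finset.range K, ∫ t in (0:ℝ)..1, (1 - t) * CC e T x' x t n) / K := by
        unfold rm
        rw [← sub_div, ← Finset.sum_sub_distrib]
        congr 1
        apply Finset.sum_congr rfl
        intro n _
        rw [Hf_sub]
        rfl
      rw [e1, ← intervalIntegral.integral_finset_sum, ← intervalIntegral.integral_div]
      · congr 1
        funext t
        unfold rm
        rw [← Finset.mul_sum, mul_div_assoc]
      · intro n _
        apply Continuous.intervalIntegrable
        exact (by fun_prop : Continuous fun t : ℝ => 1 - t).mul (CC_cont e T x' x n)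
    have hcont : ∀ K : ℕ, Continuous (fun t => (1 - t) * rm (fun n => CC e T x' x t n) K) := by
      intro K
      unfold rm
      exact (by fun_prop : Continuous fun t : ℝ => 1 - t).mul
        ((continuous_finset_sum _ (fun n _ => CC_cont e T x' x n)).div_const _)
    have e2 : D x - D x' = ∫ t in (0:ℝ)..1, (1 - t) * (rm (fun n => CC e T x' x t n) N - rm (fun n => CC e T x' x t n) N') := by
      have : D x - D x' = (rm (fun n => Hf (T * (x - e n))) N - rm (fun n => Hf (T * (x' - e n))) N) -
          (rm (fun n => Hf (T * (x - e n))) N' - rm (fun n => Hf (T * (x' - e n))) N') := by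
        rw [hD]; ring
      rw [this, hrm, hrm, ← intervalIntegral.integral_sub ((hcont N).intervalIntegrable _ _) ((hcont N').intervalIntegrable _ _)]
      congr 1
      funext t
      ring
    rw [e2]
    have hb : ∀ t ∈ Set.uIoc (0:ℝ) 1, ‖(1 - t) * (rm (fun n => CC e T x' x t n) N - rm (fun n => CC e T x' x t n) N')‖ ≤ 2 * Ξ * T := by
      intro t ht
      rw [Set.uIoc_of_le zero_le_one, mem_Ioc] at ht
      have ht0 : t ≠ 0 := ht.1.ne'
      have hs := h (t * T) (by have := ht.1; positivity) (by nlinarith [ht.2])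
      have e3 : ∀ K : ℕ, rm (fun n => CC e T x' x t n) K =
          (rm (fun n => Real.sin (t * T * (x - e n))) K - rm (fun n => Real.sin (t * T * (x' - e n))) K) / t := by
        intro K
        unfold rm
        rw [← sub_div, ← Finset.sum_sub_distrib, div_right_comm]
        congr 1
        rw [Finset.sum_div]
        apply Finset.sum_congr rfl
        intro n _
        exact CC_eq e T x' x ht0 n
      rw [e3, e3, ← sub_div, Real.norm_eq_abs, abs_mul, abs_div, abs_of_pos ht.1]
      have h1 := sin_diff hs x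
      have h2 := sin_diff hs x'
      have h3 : |rm (fun n => Real.sin (t * T * (x - e n))) N - rm (fun n => Real.sin (t * T * (x' - e n))) N -
          (rm (fun n => Real.sin (t * T * (x - e n))) N' - rm (fun n => Real.sin (t * T * (x' - e n))) N')| ≤ 2 * (Ξ * (t * T)) := by
        have : rm (fun n => Real.sin (t * T * (x - e n))) N - rm (fun n => Real.sin (t * T * (x' - e n))) N -
          (rm (fun n => Real.sin (t * T * (x - e n))) N' - rm (fun n => Real.sin (t * T * (x' - e n))) N') =
          (rm (fun n => Real.sin (t * T * (x - e n))) N - rm (fun n => Real.sin (t * T * (x - e n))) N') -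
          (rm (fun n => Real.sin (t * T * (x' - e n))) N - rm (fun n => Real.sin (t * T * (x' - e n))) N') := by ring
        rw [this]
        refine (abs_sub _ _).trans ?_
        linarith
      have h4 : |1 - t| ≤ 1 := by rw [abs_le]; constructor <;> linarith [ht.1, ht.2]
      have h5 : |rm (fun n => Real.sin (t * T * (x - e n))) N - rm (fun n => Real.sin (t * T * (x' - e n))) N -
          (rm (fun n => Real.sin (t * T * (x - e n))) N' - rm (fun n => Real.sin (t * T * (x' - e n))) N')| / t ≤ 2 * Ξ * T := by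
        rw [div_le_iff₀ ht.1]
        linarith
      calc _ ≤ 1 * (2 * Ξ * T) := mul_le_mul h4 h5 (by have := ht.1; positivity) zero_le_one
        _ = _ := one_mul _
    have := intervalIntegral.norm_integral_le_of_norm_le_const hb
    rw [sub_zero, abs_one, mul_one, Real.norm_eq_abs] at this
    exact this
  have hlim : Tendsto D atBot (𝓝 0) := by
    have h1 : ∀ K : ℕ, Tendsto (fun x => rm (fun n => Hf (T * (x - e n))) K) atBot (𝓝 0) := by
      intro K
      unfold rm
      have h2 : Tendsto (fun x => ∑ n ∈ Finset.range K, Hf (T * (x - e n))) atBot (𝓝 (∑ n ∈ Finset.range K, (0:ℝ))) := by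
        apply tendsto_finset_sum
        intro n _
        apply Hf_tendsto.comp
        apply Tendsto.const_mul_atBot hT
        exact tendsto_atBot_add_const_right _ _ tendsto_id
      have h3 := h2.div_const (K:ℝ)
      rwa [Finset.sum_const_zero, zero_div] at h3
    have h4 := (h1 N).sub (h1 N')
    rwa [sub_zero] at h4
  have h5 : Tendsto (fun x' => 2 * Ξ * T + |D x'|) atBot (𝓝 (2 * Ξ * T + |0|)) := tendsto_const_nhds.add hlim.abs
  rw [abs_zero, add_zero] at h5
  refine ge_of_tendsto h5 (Eventually.of_forall (fun x' => ?_))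
  have h6 := hdiff x'
  calc |D x| = |(D x - D x') + D x'| := by ring_nf
    _ ≤ |D x - D x'| + |D x'| := abs_add_le _ _
    _ ≤ _ := by linarith

end Pool.Agent.Y938.Dc
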