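import Mathlib
import Pool.Agent.Y938.Dc.B
import Pool.Agent.Y938.Pm.D

/-!
# Characteristic functions of the empirical distributions
-/

open Filter Topology MeasureTheory Finset
open Pool.Agent.H383.AP Pool.Agent.H383.Gen Pool.Agent.H383.Gauss
open Pool.Agent.Y938.Pm

namespace Pool.Agent.Y938.Dc

/-- Taylor polynomial of the exponential -/
noncomputable def TP (K : ℕ) (y : ℝ) : ℂ := ∑ k ∈ range K, ((y:ℂ) * Complex.I) ^ k / (k.factorial : ℂ)

lemma TP_deriv (K : ℕ) (y : ℝ) : HasDerivAt (TP (K+1)) (Complex.I * TP K y) y := by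
  have h0 : TP (K+1) = fun y : ℝ => ∑ k ∈ range K, ((y:ℂ) * Complex.I) ^ (k+1) / ((k+1).factorial : ℂ) + 1 := by
    funext y
    unfold TP
    rw [Finset.sum_range_succ']
    simp
  rw [h0]
  have h1 : ∀ k ∈ range K, HasDerivAt (fun y : ℝ => ((y:ℂ) * Complex.I) ^ (k+1) / ((k+1).factorial : ℂ))
      (Complex.I * (((y:ℂ) * Complex.I) ^ k / (k.factorial : ℂ))) y := by
    intro k _
    have e1 : HasDerivAt (fun y : ℝ => (y:ℂ) * Complex.I) Complex.I y := by
      have := (Complex.ofRealCLM.hasDerivAt (x := y)).mul_const Complex.I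
      simpa using this
    have e2 := (e1.pow (k+1)).div_const ((k+1).factorial : ℂ)
    refine e2.congr_deriv ?_
    rw [Nat.factorial_succ, Nat.add_sub_cancel]
    have : ((k:ℂ) + 1) ≠ 0 := by exact_mod_cast Nat.succ_ne_zero k
    have h2 : (k.factorial : ℂ) ≠ 0 := by exact_mod_cast Nat.factorial_ne_zero k
    push_cast
    field_simp
  have h2 := (HasDerivAt.fun_sum h1).add_const (1:ℂ)
  rw [← Finset.mul_sum] at h2
  exact h2

lemma taylor_pos (K : ℕ) : ∀ y : ℝ, 0 ≤ y → ‖Complex.exp ((y:ℂ) * Complex.I) - TP K y‖ ≤ y ^ K / (K.factorial : ℝ) := by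
  induction K with
  | zero =>
    intro y _
    unfold TP
    simp [Complex.norm_exp_ofReal_mul_I]
  | succ K ih =>
    intro y hy
    have hd : ∀ x : ℝ, HasDerivAt (fun y : ℝ => Complex.exp ((y:ℂ) * Complex.I) - TP (K+1) y)
        (Complex.I * (Complex.exp ((x:ℂ) * Complex.I) - TP K x)) x := by
      intro x
      have e1 : HasDerivAt (fun y : ℝ => (y:ℂ) * Complex.I) Complex.I x := by
        have := (Complex.ofRealCLM.hasDerivAt (x := x)).mul_const Complex.I
        simpa using this
      have e2 := e1.cexp.sub (TP_deriv K x)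
      refine e2.congr_deriv ?_
      ring
    have hB : ∀ x : ℝ, HasDerivAt (fun x : ℝ => x ^ (K+1) / ((K+1).factorial : ℝ)) (x ^ K / (K.factorial : ℝ)) x := by
      intro x
      have e2 := (hasDerivAt_pow (K+1) x).div_const ((K+1).factorial : ℝ)
      refine e2.congr_deriv ?_
      rw [Nat.factorial_succ, Nat.add_sub_cancel]
      have : ((K:ℝ) + 1) ≠ 0 := by exact_mod_cast Nat.succ_ne_zero K
      have h2 : (K.factorial : ℝ) ≠ 0 := by exact_mod_cast Nat.factorial_ne_zero K
      push_cast
      field_simp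
    have key := image_norm_le_of_norm_deriv_right_le_deriv_boundary (a := 0) (b := y)
      (f := fun y : ℝ => Complex.exp ((y:ℂ) * Complex.I) - TP (K+1) y)
      (f' := fun x => Complex.I * (Complex.exp ((x:ℂ) * Complex.I) - TP K x))
      (fun x _ => (hd x).continuousAt.continuousWithinAt)
      (fun x _ => (hd x).hasDerivWithinAt)
      (B := fun x : ℝ => x ^ (K+1) / ((K+1).factorial : ℝ)) (B' := fun x => x ^ K / (K.factorial : ℝ))
      (by
        unfold TP
        rw [Finset.sum_range_succ']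
        simp) hB
      (fun x hx => by
        rw [norm_mul, Complex.norm_I, one_mul]
        exact ih x hx.1)
    exact key ⟨hy, le_rfl⟩

lemma taylor_rem (K : ℕ) (y : ℝ) : ‖Complex.exp ((y:ℂ) * Complex.I) - TP K y‖ ≤ |y| ^ K / (K.factorial : ℝ) := by
  rcases le_total 0 y with h | h
  · rw [abs_of_nonneg h]; exact taylor_pos K y h
  · rw [abs_of_nonpos h]
    have h1 := taylor_pos K (-y) (by linarith)
    have h2 : Complex.exp ((((-y : ℝ)):ℂ) * Complex.I) - TP K (-y) =
        (starRingEnd ℂ) (Complex.exp ((y:ℂ) * Complex.I) - TP K y) := by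
      rw [map_sub, ← Complex.exp_conj]
      unfold TP
      rw [map_sum]
      congr 1
      · congr 1
        rw [map_mul, Complex.conj_ofReal, Complex.conj_I]
        push_cast; ring
      · apply Finset.sum_congr rfl
        intro k _
        rw [map_div₀, map_pow, map_mul, Complex.conj_ofReal, Complex.conj_I, Complex.conj_natCast]
        push_cast
        congr 2
        ring
    rw [h2, Complex.norm_conj] at h1
    exact h1

/-- Taylor expansion of the characteristic function of an empirical distribution -/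
lemma cm_taylor (u : ℕ → ℝ) (N : ℕ) (s : ℝ) {K : ℕ} (hK : Even K) :
    ‖cm (fun n => Complex.exp (((s * u n : ℝ) : ℂ) * Complex.I)) N -
      ∑ k ∈ range K, ((s:ℂ) * Complex.I) ^ k / (k.factorial : ℂ) * ((rm (fun n => u n ^ k) N : ℝ) : ℂ)‖ ≤
      |s| ^ K / (K.factorial : ℝ) * rm (fun n => u n ^ K) N := by
  have h1 : ∑ k ∈ range K, ((s:ℂ) * Complex.I) ^ k / (k.factorial : ℂ) * ((rm (fun n => u n ^ k) N : ℝ) : ℂ) =
      cm (fun n => TP K (s * u n)) N := by
    have : (fun n => TP K (s * u n)) = ∑ k ∈ range K, (((s:ℂ) * Complex.I) ^ k / (k.factorial : ℂ)) • (fun n => ((u n ^ k : ℝ) : ℂ)) := by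
      funext n
      rw [Finset.sum_apply]
      unfold TP
      apply Finset.sum_congr rfl
      intro k _
      rw [Pi.smul_apply, smul_eq_mul]
      push_cast
      rw [show (s:ℂ) * (u n : ℂ) * Complex.I = ((s:ℂ) * Complex.I) * (u n : ℂ) by ring, mul_pow]
      ring
    rw [this, cm_sum]
    apply Finset.sum_congr rfl
    intro k _
    rw [cm_smul, Pi.smul_apply, smul_eq_mul, cm_ofReal]
  rw [h1]
  unfold cm rm
  rw [← sub_div, ← Finset.sum_sub_distrib, norm_div, Complex.norm_natCast, ← mul_div_assoc]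
  apply div_le_div_of_nonneg_right _ (Nat.cast_nonneg N)
  refine (norm_sum_le _ _).trans ?_
  rw [Finset.mul_sum]
  apply Finset.sum_le_sum
  intro n _
  refine (taylor_rem K (s * u n)).trans (le_of_eq ?_)
  rw [abs_mul, mul_pow, hK.pow_abs (u n)]
  ring

/-- the distance between two empirical characteristic functions -/
lemma exp_close (e u : ℕ → ℝ) (N : ℕ) (s : ℝ) :
    ‖cm (fun n => Complex.exp (((s * e n : ℝ) : ℂ) * Complex.I)) N -
      cm (fun n => Complex.exp (((s * u n : ℝ) : ℂ) * Complex.I)) N‖ ≤ |s| * √(rm (fun n => (e n - u n)^2) N) := by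
  have hpt : ∀ n, ‖Complex.exp (((s * e n : ℝ) : ℂ) * Complex.I) - Complex.exp (((s * u n : ℝ) : ℂ) * Complex.I)‖ ≤ |s| * |e n - u n| := by
    intro n
    have e1 : Complex.exp (((s * e n : ℝ) : ℂ) * Complex.I) - Complex.exp (((s * u n : ℝ) : ℂ) * Complex.I) =
        Complex.exp (((s * u n : ℝ) : ℂ) * Complex.I) * (Complex.exp (((s * (e n - u n) : ℝ) : ℂ) * Complex.I) - TP 1 (s * (e n - u n))) := by
      unfold TP
      rw [Finset.sum_range_one, pow_zero, Nat.factorial_zero, Nat.cast_one, div_one, mul_sub, mul_one, ← Complex.exp_add]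
      congr 2
      push_cast; ring
    rw [e1, norm_mul, Complex.norm_exp_ofReal_mul_I, one_mul]
    refine (taylor_rem 1 _).trans (le_of_eq ?_)
    rw [pow_one, Nat.factorial_one, Nat.cast_one, div_one, abs_mul]
  rcases Nat.eq_zero_or_pos N with rfl | hN
  · unfold cm
    simp only [Finset.range_zero, Finset.sum_empty, zero_div, sub_self, norm_zero]
    positivity
  have hN0 : (0:ℝ) < N := by exact_mod_cast hN
  have h1 : ‖cm (fun n => Complex.exp (((s * e n : ℝ) : ℂ) * Complex.I)) N -
      cm (fun n => Complex.exp (((s * u n : ℝ) : ℂ) * Complex.I)) N‖ ≤ |s| * ((∑ n ∈ range N, |e n - u n|) / N) := by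
    unfold cm
    rw [← sub_div, ← Finset.sum_sub_distrib, norm_div, Complex.norm_natCast, ← mul_div_assoc]
    apply div_le_div_of_nonneg_right _ hN0.le
    refine (norm_sum_le _ _).trans ?_
    rw [Finset.mul_sum]
    exact Finset.sum_le_sum (fun n _ => hpt n)
  refine h1.trans (mul_le_mul_of_nonneg_left ?_ (abs_nonneg s))
  apply Real.le_sqrt_of_sq_le
  rw [div_pow]
  have h2 := sq_sum_le_card_mul_sum_sq (s := range N) (f := fun n => |e n - u n|)
  simp only [Finset.card_range, sq_abs] at h2
  unfold rm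
  rw [div_le_div_iff₀ (by positivity) hN0]
  nlinarith

end Pool.Agent.Y938.Dc
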