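import Mathlib
import Pool.Agent.Y938.Dc.C

/-!
# Two empirical characteristic functions are close on long ranges
-/

open Filter Topology MeasureTheory Finset
open Pool.Agent.H383.AP Pool.Agent.H383.Gen Pool.Agent.H383.Gauss
open Pool.Agent.H425R3.JL (Tl_pow)
open Pool.Agent.Y938.Pm

namespace Pool.Agent.Y938.Dc

/-- the size of the error in the moments of the model -/
lemma big_bound {G : ℝ} (hG : 3 ≤ G) {K : ℕ} (hK : 1 ≤ K) (h : 9 * (G + 4001 * K) ≤ Real.exp K) :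
    ((K:ℝ) + 2) * (K:ℝ)^K * (G * (K:ℝ)^4001) ^ (K + 2^K) * (K:ℝ)^5 ≤ Real.exp (Real.exp (4 * K)) := by
  set B : ℝ := G * (K:ℝ)^4001 with hB
  have hK1 : (1:ℝ) ≤ K := by exact_mod_cast hK
  have hp : (1:ℝ) ≤ (K:ℝ)^4000 := one_le_pow₀ hK1
  have hKB : (K:ℝ) * 3 ≤ B := by
    calc (K:ℝ) * 3 = 3 * ((K:ℝ) * 1) := by ring
      _ ≤ G * ((K:ℝ) * (K:ℝ)^4000) := by gcongr
      _ = B := by rw [hB]; ring
  have hB1 : 1 ≤ B := by linarith
  have hB0 : 0 < B := by linarith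
  have h1 : (K:ℝ) + 2 ≤ B := by linarith
  have h2 : (K:ℝ) ≤ B := by linarith
  have hK2 : K ≤ 2^K := (Nat.lt_two_pow_self).le
  have h12 : 1 ≤ 2^K := Nat.one_le_two_pow
  have h3 : ((K:ℝ) + 2) * (K:ℝ)^K * B ^ (K + 2^K) * (K:ℝ)^5 ≤ B ^ (9 * 2^K) := by
    calc ((K:ℝ) + 2) * (K:ℝ)^K * B ^ (K + 2^K) * (K:ℝ)^5 ≤ B * B^K * B ^ (K + 2^K) * B^5 := by gcongr
      _ = B ^ (1 + K + (K + 2^K) + 5) := by ring
      _ ≤ B ^ (9 * 2^K) := pow_le_pow_right₀ hB1 (by omega)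
  refine h3.trans ?_
  have h4 : Real.log B ≤ G + 4001 * K := by
    rw [hB, Real.log_mul (by positivity) (by positivity), Real.log_pow]
    have e1 : Real.log G ≤ G := (Real.log_le_sub_one_of_pos (by linarith)).trans (by linarith)
    have e2 : Real.log (K:ℝ) ≤ K := (Real.log_le_sub_one_of_pos (by linarith)).trans (by linarith)
    push_cast
    nlinarith
  have h5 : (2:ℝ)^K ≤ Real.exp K := by
    have : (2:ℝ) ≤ Real.exp 1 := by have := Real.add_one_le_exp (1:ℝ); linarith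
    calc (2:ℝ)^K ≤ (Real.exp 1)^K := pow_le_pow_left₀ (by norm_num) this K
      _ = Real.exp K := by rw [← Real.exp_nat_mul, mul_one]
  have h6 : B ^ (9 * 2^K) = Real.exp (((9 * 2^K : ℕ):ℝ) * Real.log B) := by
    rw [Real.exp_nat_mul, Real.exp_log hB0]
  rw [h6]
  apply Real.exp_le_exp.mpr
  have hlog0 : 0 ≤ Real.log B := Real.log_nonneg hB1
  have hG0 : 0 ≤ G + 4001 * K := by positivity
  calc ((9 * 2^K : ℕ):ℝ) * Real.log B = 2^K * (9 * Real.log B) := by push_cast; ring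
    _ ≤ Real.exp K * (9 * (G + 4001 * K)) := by gcongr
    _ ≤ Real.exp K * Real.exp K := by gcongr
    _ = Real.exp (2 * K) := by rw [← Real.exp_add]; congr 1; ring
    _ ≤ _ := Real.exp_le_exp.mpr (by nlinarith)

/-- **the empirical characteristic functions are close** -/
theorem char_diff {af : ℕ → ℝ} (ha : Bd af) {φ X : ℝ} {κ : ℕ} (hκ : 0 < κ) {e : ℕ → ℝ}
    (hl2 : ∃ C : ℝ, 0 < C ∧ ∃ N0 : ℕ, ∀ N : ℕ, N0 ≤ N → ∀ M : ℕ, 1 ≤ M → (M:ℝ) ≤ (N:ℝ) ^ (1/200:ℝ) →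
      ∑ n ∈ range N, (e n - U af φ (X + n * √(κ:ℝ)) M)^2 ≤ C * (Tl M + (N:ℝ) ^ (-(1/100):ℝ)) * N)
    {κ' : ℝ} (hκ' : 1/2 < κ') (hbk : BK af κ') {p : ℝ} (hp1 : 1 ≤ p) (hp2 : p ≤ 2) (hp : 1 < κ' * p) :
    ∃ C θ : ℝ, 0 < C ∧ 0 < θ ∧ θ ≤ 1 ∧ ∃ K0 : ℕ, ∀ K : ℕ, K0 ≤ K → Even K → ∀ N N' : ℕ,
      Real.exp (Real.exp (4 * K)) ≤ N → Real.exp (Real.exp (4 * K)) ≤ N' → 1 ≤ θ * (K:ℝ) ^ (1/p) ∧
      ∀ s : ℝ, 0 < s → s ≤ θ * (K:ℝ) ^ (1/p) →
      ‖cm (fun n => Complex.exp (((s * e n : ℝ) : ℂ) * Complex.I)) N -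
        cm (fun n => Complex.exp (((s * e n : ℝ) : ℂ) * Complex.I)) N'‖ ≤ (C / (K:ℝ)^5) * s := by
  obtain ⟨CA, hCA, NA, hA⟩ := hl2
  obtain ⟨CT, hCT, hTl⟩ := Tl_pow
  obtain ⟨C0, hC0, hco⟩ := sum_coef ha
  obtain ⟨C1, hC1, hbk'⟩ := hbk
  have hα : 0 < √(κ:ℝ) := Real.sqrt_pos.mpr (by exact_mod_cast hκ)
  obtain ⟨S0, hS⟩ := Pool.Agent.H383.Gauss.exists_S hα
  obtain ⟨B0, D, hB0, hD, hm⟩ := mom_bound (φ := φ) (X := X) hS hκ' hC1 hbk' hp1 hp2 hp
  set θ : ℝ := Real.exp (-(B0 + D + 1)) with hθ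
  have hθ0 : 0 < θ := Real.exp_pos _
  have hθ1 : θ ≤ 1 := Real.exp_le_one_iff.mpr (by linarith)
  have hp0 : 0 < p := by linarith
  have hip0 : 0 < 1/p := by positivity
  have hip1 : 1/p ≤ 1 := by rw [div_le_one hp0]; exact hp1
  set G : ℝ := C0 + 2 * √(κ:ℝ) + 3 with hG
  have hsκ : 0 ≤ √(κ:ℝ) := Real.sqrt_nonneg _
  have hG3 : 3 ≤ G := by rw [hG]; linarith
  -- growth conditions
  set C2 : ℝ := NA + 400000 + 9 * G + 36009 with hC2
  have hNA0 : (0:ℝ) ≤ NA := Nat.cast_nonneg _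
  have hx1 : Tendsto (fun x : ℝ => x ^ 1 * Real.exp (-x)) atTop (𝓝 0) := Real.tendsto_pow_mul_exp_neg_atTop_nhds_zero 1
  have hx0 : Tendsto (fun x : ℝ => x ^ 0 * Real.exp (-x)) atTop (𝓝 0) := Real.tendsto_pow_mul_exp_neg_atTop_nhds_zero 0
  have hx5 : Tendsto (fun x : ℝ => x ^ 5 * Real.exp (-x)) atTop (𝓝 0) := Real.tendsto_pow_mul_exp_neg_atTop_nhds_zero 5
  have ev1 : ∀ᶠ K : ℕ in atTop, C2 * ((K:ℝ) + 1) ≤ Real.exp K := by
    have h1 : Tendsto (fun x : ℝ => C2 * (x ^ 1 * Real.exp (-x) + x ^ 0 * Real.exp (-x))) atTop (𝓝 (C2 * (0 + 0))) :=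
      (hx1.add hx0).const_mul C2
    rw [add_zero, mul_zero] at h1
    have h2 := (h1.comp tendsto_natCast_atTop_atTop).eventually (gt_mem_nhds (zero_lt_one))
    filter_upwards [h2] with K hK
    rw [Function.comp_apply, pow_one, pow_zero, ← add_mul, ← mul_assoc, Real.exp_neg, ← div_eq_mul_inv, div_lt_one (Real.exp_pos _)] at hK
    exact hK.le
  have ev5 : ∀ᶠ K : ℕ in atTop, 4 * (K:ℝ)^5 ≤ Real.exp K := by
    have h1 : Tendsto (fun x : ℝ => 4 * (x ^ 5 * Real.exp (-x))) atTop (𝓝 (4 * 0)) := hx5.const_mul 4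
    rw [mul_zero] at h1
    have h2 := (h1.comp tendsto_natCast_atTop_atTop).eventually (gt_mem_nhds (zero_lt_one))
    filter_upwards [h2] with K hK
    rw [Function.comp_apply, ← mul_assoc, Real.exp_neg, ← div_eq_mul_inv, div_lt_one (Real.exp_pos _)] at hK
    exact hK.le
  have ev4 : ∀ᶠ K : ℕ in atTop, 1 ≤ θ * (K:ℝ) ^ (1/p) := by
    have h1 : Tendsto (fun K : ℕ => (K:ℝ) ^ (1/p)) atTop atTop := (tendsto_rpow_atTop hip0).comp tendsto_natCast_atTop_atTop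
    exact (h1.const_mul_atTop hθ0).eventually_ge_atTop 1
  obtain ⟨K1, hK1⟩ := Filter.eventually_atTop.mp (ev1.and (ev5.and ev4))
  refine ⟨2 * √(CA * (CT + 1)) + 2, θ, by positivity, hθ0, hθ1, max K1 1, ?_⟩
  intro K hK hKe N N' hN hN'
  obtain ⟨g1, g5, g4⟩ := hK1 K ((le_max_left _ _).trans hK)
  refine ⟨g4, ?_⟩
  intro s hs hsT
  have hKone : 1 ≤ K := (le_max_right _ _).trans hK
  have hKr : (1:ℝ) ≤ K := by exact_mod_cast hKone
  have hK0 : (0:ℝ) < K := by linarith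
  set E : ℝ := Real.exp (4 * K) with hE
  have hEK : Real.exp K ≤ E := Real.exp_le_exp.mpr (by linarith)
  have hlogK : Real.log (K:ℝ) ≤ K := (Real.log_le_sub_one_of_pos hK0).trans (by linarith)
  have hlogK0 : 0 ≤ Real.log (K:ℝ) := Real.log_nonneg hKr
  have hGK : 0 ≤ G * K := by positivity
  have hNK : 0 ≤ (NA:ℝ) * K := by positivity
  have g1' : (NA + 400000 + 9 * G + 36009) * ((K:ℝ) + 1) ≤ Real.exp K := g1
  have c1 : (NA:ℝ) ≤ Real.exp K := by nlinarith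
  have c2 : 400000 * (K:ℝ) ≤ Real.exp K := by nlinarith
  have c3 : 9 * (G + 4001 * K) ≤ Real.exp K := by nlinarith
  set T : ℝ := θ * (K:ℝ) ^ (1/p) with hT
  have hT1 : 1 ≤ T := g4
  have hTK : T ≤ K := by
    calc T ≤ 1 * (K:ℝ) ^ (1/p) := by rw [hT]; gcongr
      _ = (K:ℝ) ^ (1/p) := one_mul _
      _ ≤ (K:ℝ) ^ (1:ℝ) := Real.rpow_le_rpow_of_exponent_le hKr hip1
      _ = K := Real.rpow_one _
  set M : ℕ := K^2000 with hM
  have hM1 : 1 ≤ M := Nat.one_le_pow _ _ hKone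
  have hMr : (M:ℝ) = (K:ℝ)^2000 := by rw [hM]; push_cast; rfl
  set u : ℕ → ℝ := fun n => U af φ (X + n * √(κ:ℝ)) M with hu
  -- the number Z
  set B : ℝ := G * (K:ℝ)^4001 with hB
  have hB1 : 1 ≤ B := by
    have : (1:ℝ) ≤ (K:ℝ)^4001 := one_le_pow₀ hKr
    nlinarith
  have hWB : ∑ m ∈ Icc 1 (M^2), |af m| ≤ B := by
    refine (hco M).trans ?_
    rw [hMr, hB]
    calc C0 * ((K:ℝ)^2000)^2 = C0 * (K:ℝ)^4000 := by rw [← pow_mul]
      _ ≤ G * (K:ℝ)^4001 := by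
          apply mul_le_mul _ (pow_le_pow_right₀ hKr (by norm_num)) (by positivity) (by positivity)
          rw [hG]; linarith
  have hYB : ∀ k : ℕ, k ≤ K → 2 * (k:ℝ) * (√(κ:ℝ) * M) + 1 ≤ B := by
    intro k hk
    have hk' : (k:ℝ) ≤ K := by exact_mod_cast hk
    have h1 : (1:ℝ) ≤ (K:ℝ)^2001 := one_le_pow₀ hKr
    calc 2 * (k:ℝ) * (√(κ:ℝ) * M) + 1 ≤ 2 * (K:ℝ) * (√(κ:ℝ) * M) + 1 := by gcongr
      _ = 2 * √(κ:ℝ) * (K:ℝ)^2001 + 1 := by rw [hMr]; ring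
      _ ≤ 2 * √(κ:ℝ) * (K:ℝ)^2001 + 1 * (K:ℝ)^2001 := by linarith
      _ = (2 * √(κ:ℝ) + 1) * (K:ℝ)^2001 := by ring
      _ ≤ G * (K:ℝ)^4001 := by
          apply mul_le_mul _ (pow_le_pow_right₀ hKr (by norm_num)) (by positivity) (by positivity)
          rw [hG]; linarith
  have hmx : ∀ k : ℕ, k ≤ K → ∃ L : ℝ, ∀ N : ℕ, 0 < N → |rm (fun n => u n ^ k) N - L| ≤ B ^ (K + 2^K) / (2 * N) := by
    intro k hk
    obtain ⟨L, hL⟩ := mixed_avg (k := k) af φ (fun _ => κ) (fun _ => hκ) (fun _ => X) (M := M) (Y := √(κ:ℝ) * M)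
      (W := B) (by positivity) (fun _ => le_rfl) hWB
    refine ⟨L, fun N hN => ?_⟩
    have h1 := hL N hN
    have e1 : ∀ n : ℕ, ∏ _j : Fin k, U af φ (X + n * √(κ:ℝ)) M = u n ^ k := by
      intro n
      rw [Finset.prod_const, Finset.card_univ, Fintype.card_fin]
    simp only [e1] at h1
    refine h1.trans ?_
    have hN0 : (0:ℝ) < N := by exact_mod_cast hN
    apply div_le_div_of_nonneg_right _ (by positivity)
    have h2 : (2 * (k:ℝ) * (√(κ:ℝ) * M) + 1) ^ (2^k) ≤ B ^ (2^K) := by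
      calc (2 * (k:ℝ) * (√(κ:ℝ) * M) + 1) ^ (2^k) ≤ B ^ (2^k) := pow_le_pow_left₀ (by positivity) (hYB k hk) _
        _ ≤ B ^ (2^K) := pow_le_pow_right₀ hB1 (Nat.pow_le_pow_right (by norm_num) hk)
    calc B ^ k * (2 * (k:ℝ) * (√(κ:ℝ) * M) + 1) ^ (2^k) ≤ B ^ K * B ^ (2^K) := by
          apply mul_le_mul (pow_le_pow_right₀ hB1 hk) h2 (by positivity) (by positivity)
      _ = B ^ (K + 2^K) := by rw [pow_add]
  have hEE : 0 < Real.exp E := Real.exp_pos _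
  set ζ : ℝ := B ^ (K + 2^K) / Real.exp E with hζ
  have hζ0 : 0 ≤ ζ := by positivity
  have hNpos : ∀ N : ℕ, Real.exp E ≤ N → 0 < N := by
    intro N h
    have : (0:ℝ) < N := lt_of_lt_of_le hEE h
    exact_mod_cast this
  have hmxN : ∀ k : ℕ, k ≤ K → ∃ L : ℝ, Tendsto (rm (fun n => u n ^ k)) atTop (𝓝 L) ∧
      ∀ N : ℕ, Real.exp E ≤ N → |rm (fun n => u n ^ k) N - L| ≤ ζ / 2 := by
    intro k hk
    obtain ⟨L, hL⟩ := hmx k hk
    refine ⟨L, tendsto_of_rate hL, fun N hN => (hL N (hNpos N hN)).trans ?_⟩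
    rw [hζ, div_div, mul_comm (Real.exp E) 2]
    apply div_le_div_of_nonneg_left (by positivity) (by positivity)
    linarith
  -- the bound for ζ
  have hζK : ((K:ℝ) + 2) * (K:ℝ)^K * ζ ≤ 1 / (K:ℝ)^5 := by
    have h1 := big_bound hG3 hKone c3
    rw [hζ, le_div_iff₀ (by positivity), ← mul_div_assoc, div_mul_eq_mul_div, div_le_one hEE]
    exact h1
  -- the mean square distance
  have hms : ∀ N : ℕ, Real.exp E ≤ N → √(rm (fun n => (e n - u n)^2) N) ≤ √(CA * (CT + 1)) / (K:ℝ)^5 := by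
    intro N hN
    have hN0 := hNpos N hN
    have hNr : (0:ℝ) < N := by exact_mod_cast hN0
    have hNA : NA ≤ N := by
      have h1 : (NA:ℝ) ≤ N := by
        have h2 := Real.add_one_le_exp E
        linarith
      exact_mod_cast h1
    have hNexp : ∀ r : ℝ, 0 ≤ r → Real.exp (E * r) ≤ (N:ℝ) ^ r := by
      intro r hr
      rw [Real.exp_mul]
      exact Real.rpow_le_rpow hEE.le hN hr
    have hMN : (M:ℝ) ≤ (N:ℝ) ^ (1/200:ℝ) := by
      refine le_trans ?_ (hNexp (1/200) (by norm_num))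
      rw [hMr, ← Real.exp_log (pow_pos hK0 2000), Real.log_pow]
      apply Real.exp_le_exp.mpr
      push_cast
      nlinarith
    have h1 := hA N hNA M hM1 hMN
    have h2 : rm (fun n => (e n - u n)^2) N ≤ CA * (Tl M + (N:ℝ) ^ (-(1/100):ℝ)) := by
      unfold rm
      rw [div_le_iff₀ hNr]
      exact h1
    have h3 : Tl M ≤ CT * (1 / ((K:ℝ)^5)^2) := by
      refine (hTl M hM1).trans (le_of_eq ?_)
      have e3 : ((K:ℝ)^2000) ^ (-(1/200):ℝ) = ((K:ℝ)^10)⁻¹ := by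
        rw [← Real.rpow_natCast (K:ℝ) 2000, ← Real.rpow_mul hK0.le, ← Real.rpow_natCast (K:ℝ) 10, ← Real.rpow_neg hK0.le]
        norm_num
      rw [hMr, e3, ← pow_mul, one_div]
    have h4 : (N:ℝ) ^ (-(1/100):ℝ) ≤ 1 / ((K:ℝ)^5)^2 := by
      rw [Real.rpow_neg hNr.le, ← one_div]
      apply one_div_le_one_div_of_le (by positivity)
      refine le_trans ?_ (hNexp (1/100) (by norm_num))
      rw [← pow_mul, ← Real.exp_log (pow_pos hK0 (5*2)), Real.log_pow]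
      apply Real.exp_le_exp.mpr
      push_cast
      nlinarith
    have h5 : rm (fun n => (e n - u n)^2) N ≤ (CA * (CT + 1)) / ((K:ℝ)^5)^2 := by
      refine h2.trans ?_
      calc CA * (Tl M + (N:ℝ) ^ (-(1/100):ℝ)) ≤ CA * (CT * (1 / ((K:ℝ)^5)^2) + 1 / ((K:ℝ)^5)^2) := by gcongr
        _ = _ := by ring
    calc √(rm (fun n => (e n - u n)^2) N) ≤ √((CA * (CT + 1)) / ((K:ℝ)^5)^2) := Real.sqrt_le_sqrt h5
      _ = √(CA * (CT + 1)) / (K:ℝ)^5 := by
          rw [Real.sqrt_div' _ (by positivity), Real.sqrt_sq (by positivity)]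
  -- the K-th moment
  obtain ⟨J, hJ⟩ := hKe
  have hJ2 : K = 2 * J := by omega
  set lam : ℝ := (K:ℝ) ^ (1/p) with hlam
  have hlam0 : 0 < lam := by positivity
  have hlamK : lam ≤ K := by
    calc (K:ℝ) ^ (1/p) ≤ (K:ℝ) ^ (1:ℝ) := Real.rpow_le_rpow_of_exponent_le hKr hip1
      _ = K := Real.rpow_one _
  have hlamp : lam ^ p = K := by
    rw [hlam, ← Real.rpow_mul hK0.le, one_div, inv_mul_cancel₀ hp0.ne', Real.rpow_one]
  obtain ⟨LK, hLK1, hLK2⟩ := hmxN K le_rfl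
  have hLKb : LK ≤ (K.factorial : ℝ) / lam ^ K * (2 * Real.exp ((B0 + D) * K)) := by
    have h1 := hm lam hlam0 M J LK (by rw [← hJ2]; exact hLK1)
    rw [← hJ2, hlamp] at h1
    refine h1.trans ?_
    gcongr
    nlinarith
  have hfac : (0:ℝ) < K.factorial := by exact_mod_cast Nat.factorial_pos K
  -- bounds for powers of s
  have hsK : ∀ k : ℕ, 1 ≤ k → s ^ k ≤ s * T ^ (k-1) := by
    intro k hk
    obtain ⟨j, rfl⟩ : ∃ j, k = j + 1 := ⟨k - 1, by omega⟩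
    rw [pow_succ, Nat.add_sub_cancel, mul_comm]
    exact mul_le_mul_of_nonneg_left (pow_le_pow_left₀ hs.le hsT j) hs.le
  have hTpow : ∀ k : ℕ, k ≤ K → T ^ (k-1) ≤ (K:ℝ)^K := by
    intro k hk
    calc T ^ (k-1) ≤ (K:ℝ) ^ (k-1) := pow_le_pow_left₀ (by linarith) hTK _
      _ ≤ (K:ℝ)^K := pow_le_pow_right₀ hKr (by omega)
  have hK2 : 1 ≤ K := hKone
  -- the remainder term
  have hrem : ∀ N : ℕ, Real.exp E ≤ N → |s| ^ K / (K.factorial : ℝ) * rm (fun n => u n ^ K) N ≤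
      s * (2 * Real.exp (-K) + (K:ℝ)^K * (ζ / 2)) := by
    intro N hN
    rw [abs_of_pos hs]
    have h1 : rm (fun n => u n ^ K) N ≤ LK + ζ / 2 := by
      have := (abs_le.mp (hLK2 N hN)).2
      linarith
    have h2 : s ^ K / (K.factorial : ℝ) * LK ≤ s * (2 * Real.exp (-K)) := by
      have h3 : s ^ K ≤ s * T ^ K := by
        calc s ^ K ≤ s * T ^ (K-1) := hsK K hK2
          _ ≤ s * T ^ K := by
              apply mul_le_mul_of_nonneg_left _ hs.le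
              exact pow_le_pow_right₀ hT1 (by omega)
      calc s ^ K / (K.factorial : ℝ) * LK ≤ s ^ K / (K.factorial : ℝ) * ((K.factorial : ℝ) / lam ^ K * (2 * Real.exp ((B0 + D) * K))) := by
            gcongr
        _ = s ^ K * (2 * Real.exp ((B0 + D) * K)) / lam ^ K := by field_simp
        _ ≤ (s * T ^ K) * (2 * Real.exp ((B0 + D) * K)) / lam ^ K := by gcongr
        _ = s * (2 * (θ ^ K * Real.exp ((B0 + D) * K))) := by
            rw [hT, mul_pow]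
            field_simp
        _ = s * (2 * Real.exp (-K)) := by
            congr 2
            rw [hθ, ← Real.exp_nat_mul, ← Real.exp_add]
            congr 1; ring
    have h4 : s ^ K / (K.factorial : ℝ) ≤ s * (K:ℝ)^K := by
      have hf1 : (1:ℝ) ≤ K.factorial := by exact_mod_cast Nat.one_le_iff_ne_zero.mpr (Nat.factorial_ne_zero K)
      calc s ^ K / (K.factorial : ℝ) ≤ s ^ K := div_le_self (by positivity) hf1
        _ ≤ s * T ^ (K-1) := hsK K hK2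
        _ ≤ s * (K:ℝ)^K := mul_le_mul_of_nonneg_left (hTpow K le_rfl) hs.le
    calc s ^ K / (K.factorial : ℝ) * rm (fun n => u n ^ K) N ≤ s ^ K / (K.factorial : ℝ) * (LK + ζ / 2) := by gcongr
      _ = s ^ K / (K.factorial : ℝ) * LK + s ^ K / (K.factorial : ℝ) * (ζ / 2) := by ring
      _ ≤ s * (2 * Real.exp (-K)) + s * (K:ℝ)^K * (ζ / 2) := add_le_add h2 (mul_le_mul_of_nonneg_right h4 (by positivity))
      _ = _ := by ring
  -- the difference of the Taylor polynomials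
  have hpoly : ‖∑ k ∈ range K, ((s:ℂ) * Complex.I) ^ k / (k.factorial : ℂ) * ((rm (fun n => u n ^ k) N : ℝ) : ℂ) -
      ∑ k ∈ range K, ((s:ℂ) * Complex.I) ^ k / (k.factorial : ℂ) * ((rm (fun n => u n ^ k) N' : ℝ) : ℂ)‖ ≤
      s * ((K:ℝ) * ((K:ℝ)^K * ζ)) := by
    rw [← Finset.sum_sub_distrib]
    refine (norm_sum_le _ _).trans ?_
    calc ∑ k ∈ range K, ‖((s:ℂ) * Complex.I) ^ k / (k.factorial : ℂ) * ((rm (fun n => u n ^ k) N : ℝ) : ℂ) -
        ((s:ℂ) * Complex.I) ^ k / (k.factorial : ℂ) * ((rm (fun n => u n ^ k) N' : ℝ) : ℂ)‖ ≤ ∑ k ∈ range K, s * ((K:ℝ)^K * ζ) := by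
          apply Finset.sum_le_sum
          intro k hk
          rw [Finset.mem_range] at hk
          rw [← mul_sub, norm_mul, norm_div, norm_pow, norm_mul, Complex.norm_I, mul_one, Complex.norm_natCast, Complex.norm_real,
            Real.norm_eq_abs, abs_of_pos hs, ← Complex.ofReal_sub, Complex.norm_real, Real.norm_eq_abs]
          rcases Nat.eq_zero_or_pos k with rfl | hk0
          · have hone : ∀ N : ℕ, 0 < N → rm (fun n => u n ^ 0) N = 1 := by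
              intro N hN0
              have : (0:ℝ) < N := by exact_mod_cast hN0
              unfold rm
              simp only [pow_zero, Finset.sum_const, Finset.card_range, nsmul_eq_mul, mul_one]
              field_simp
            rw [hone N (hNpos N hN), hone N' (hNpos N' hN'), sub_self, abs_zero, mul_zero]
            positivity
          · obtain ⟨L, -, hL⟩ := hmxN k hk.le
            have h1 := hL N hN
            have h2 := hL N' hN'
            have h3 : |rm (fun n => u n ^ k) N - rm (fun n => u n ^ k) N'| ≤ ζ := by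
              calc |rm (fun n => u n ^ k) N - rm (fun n => u n ^ k) N'| =
                  |(rm (fun n => u n ^ k) N - L) - (rm (fun n => u n ^ k) N' - L)| := by ring_nf
                _ ≤ |rm (fun n => u n ^ k) N - L| + |rm (fun n => u n ^ k) N' - L| := abs_sub _ _
                _ ≤ ζ := by linarith
            have hf1 : (1:ℝ) ≤ k.factorial := by exact_mod_cast Nat.one_le_iff_ne_zero.mpr (Nat.factorial_ne_zero k)
            have h4 : s ^ k / (k.factorial : ℝ) ≤ s * (K:ℝ)^K := by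
              calc s ^ k / (k.factorial : ℝ) ≤ s ^ k := div_le_self (by positivity) hf1
                _ ≤ s * T ^ (k-1) := hsK k hk0
                _ ≤ s * (K:ℝ)^K := mul_le_mul_of_nonneg_left (hTpow k hk.le) hs.le
            calc s ^ k / (k.factorial : ℝ) * |rm (fun n => u n ^ k) N - rm (fun n => u n ^ k) N'| ≤ (s * (K:ℝ)^K) * ζ :=
                  mul_le_mul h4 h3 (abs_nonneg _) (by positivity)
              _ = _ := by ring
      _ = s * ((K:ℝ) * ((K:ℝ)^K * ζ)) := by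
          rw [Finset.sum_const, Finset.card_range, nsmul_eq_mul]; ring
  -- combine
  have k1 := exp_close e u N s
  have k2 := exp_close e u N' s
  rw [abs_of_pos hs] at k1 k2
  have k3 := (cm_taylor u N s (K := K) ⟨J, hJ⟩).trans (hrem N hN)
  have k4 := (cm_taylor u N' s (K := K) ⟨J, hJ⟩).trans (hrem N' hN')
  have k5 := mul_le_mul_of_nonneg_left (hms N hN) hs.le
  have k6 := mul_le_mul_of_nonneg_left (hms N' hN') hs.le
  set x1 := cm (fun n => Complex.exp (((s * e n : ℝ) : ℂ) * Complex.I)) N with hx1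
  set x2 := cm (fun n => Complex.exp (((s * u n : ℝ) : ℂ) * Complex.I)) N with hx2
  set x3 := ∑ k ∈ range K, ((s:ℂ) * Complex.I) ^ k / (k.factorial : ℂ) * ((rm (fun n => u n ^ k) N : ℝ) : ℂ) with hx3
  set y1 := cm (fun n => Complex.exp (((s * e n : ℝ) : ℂ) * Complex.I)) N' with hy1
  set y2 := cm (fun n => Complex.exp (((s * u n : ℝ) : ℂ) * Complex.I)) N' with hy2
  set y3 := ∑ k ∈ range K, ((s:ℂ) * Complex.I) ^ k / (k.factorial : ℂ) * ((rm (fun n => u n ^ k) N' : ℝ) : ℂ) with hy3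
  have htri : ‖x1 - y1‖ ≤ ‖x1 - x2‖ + ‖x2 - x3‖ + ‖x3 - y3‖ + ‖y2 - y3‖ + ‖y1 - y2‖ := by
    have : x1 - y1 = (x1 - x2) + (x2 - x3) + (x3 - y3) - (y2 - y3) - (y1 - y2) := by ring
    rw [this]
    refine (norm_sub_le _ _).trans ?_
    gcongr
    refine (norm_sub_le _ _).trans ?_
    gcongr
    refine (norm_add_le _ _).trans ?_
    gcongr
    exact norm_add_le _ _
  have h4e : 4 * Real.exp (-K) ≤ 1 / (K:ℝ)^5 := by
    rw [Real.exp_neg, le_div_iff₀ (by positivity), mul_assoc, mul_comm _ ((K:ℝ)^5), ← mul_assoc, ← div_eq_mul_inv, div_le_one (Real.exp_pos _)]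
    exact g5
  have hsum : s * (√(CA * (CT + 1)) / (K:ℝ)^5) + s * (2 * Real.exp (-K) + (K:ℝ)^K * (ζ / 2)) + s * ((K:ℝ) * ((K:ℝ)^K * ζ)) +
      s * (2 * Real.exp (-K) + (K:ℝ)^K * (ζ / 2)) + s * (√(CA * (CT + 1)) / (K:ℝ)^5) ≤
      ((2 * √(CA * (CT + 1)) + 2) / (K:ℝ)^5) * s := by
    have e1 : s * (√(CA * (CT + 1)) / (K:ℝ)^5) + s * (2 * Real.exp (-K) + (K:ℝ)^K * (ζ / 2)) + s * ((K:ℝ) * ((K:ℝ)^K * ζ)) +
      s * (2 * Real.exp (-K) + (K:ℝ)^K * (ζ / 2)) + s * (√(CA * (CT + 1)) / (K:ℝ)^5) =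
      s * (2 * √(CA * (CT + 1)) / (K:ℝ)^5 + 4 * Real.exp (-K) + ((K:ℝ) + 1) * (K:ℝ)^K * ζ) := by ring
    rw [e1]
    have h5 : ((K:ℝ) + 1) * (K:ℝ)^K * ζ ≤ 1 / (K:ℝ)^5 := by
      refine le_trans ?_ hζK
      gcongr
      norm_num
    have h6 : 2 * √(CA * (CT + 1)) / (K:ℝ)^5 + 4 * Real.exp (-K) + ((K:ℝ) + 1) * (K:ℝ)^K * ζ ≤
        (2 * √(CA * (CT + 1)) + 2) / (K:ℝ)^5 := by
      have e2 : (2 * √(CA * (CT + 1)) + 2) / (K:ℝ)^5 = 2 * √(CA * (CT + 1)) / (K:ℝ)^5 + 1 / (K:ℝ)^5 + 1 / (K:ℝ)^5 := by ring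
      rw [e2]; linarith
    calc _ ≤ s * ((2 * √(CA * (CT + 1)) + 2) / (K:ℝ)^5) := mul_le_mul_of_nonneg_left h6 hs.le
      _ = _ := mul_comm _ _
  refine htri.trans (le_trans ?_ hsum)
  have q1 := k1.trans k5
  have q2 := k2.trans k6
  linarith

end Pool.Agent.Y938.Dc
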