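import Mathlib
import Pool.Agent.Y938.Dc.D
import Pool.Agent.H383.Full3

/-!
# The rate of convergence in distribution
-/

open Filter Topology MeasureTheory Finset
open Pool.Agent.H383.AP Pool.Agent.H383.Gen Pool.Agent.H383.Gauss
open Pool.Agent.H425R3.JL (Data sum_Icc_range Ec circ_data Edv div_data)
open Pool.Agent.Y938.Pm

namespace Pool.Agent.Y938.Dc

/-- a bounded density -/
theorem lip_of_decay (μ : ProbabilityMeasure ℝ) {C c p : ℝ} (hc : 0 < c) (hp : 1 < p) (hC : 0 ≤ C)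
    (h : ∀ t : ℝ, ‖charFun (μ : Measure ℝ) t‖ ≤ C * Real.exp (-(c * |t| ^ p))) :
    ∃ A : ℝ, 0 ≤ A ∧ ∀ x y : ℝ, x ≤ y → (μ : Measure ℝ).real (Set.Iic y) - (μ : Measure ℝ).real (Set.Iic x) ≤ A * (y - x) := by
  open Pool.Agent.H383.ED in
  have hi := Ps_integrable (μ : Measure ℝ) hc hp hC h
  have hd : Differentiable ℂ (Pool.Agent.H383.ED.G (Pool.Agent.H383.ED.Ps (μ : Measure ℝ))) :=
    Pool.Agent.H383.ED.G_diff (Pool.Agent.H383.ED.Ps_cont (μ : Measure ℝ)) hc hp hC (Pool.Agent.H383.ED.Ps_bound (μ : Measure ℝ) hc hp hC h)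
  have hcG : Continuous (fun x : ℝ => Pool.Agent.H383.ED.G (Pool.Agent.H383.ED.Ps (μ : Measure ℝ)) x) := hd.continuous.comp Complex.continuous_ofReal
  have hw := Pool.Agent.H383.ED.eq_withDensity (μ : Measure ℝ) hi hcG
  set A : ℝ := ∫ v, ‖Pool.Agent.H383.ED.Ps (μ : Measure ℝ) v‖ with hA
  have hA0 : 0 ≤ A := integral_nonneg (fun _ => norm_nonneg _)
  have hb : ∀ x : ℝ, (Pool.Agent.H383.ED.G (Pool.Agent.H383.ED.Ps (μ : Measure ℝ)) x).re ≤ A := by
    intro x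
    refine (Complex.re_le_norm _).trans ?_
    unfold Pool.Agent.H383.ED.G
    refine (norm_integral_le_integral_norm _).trans (le_of_eq ?_)
    rw [hA]
    congr 1
    funext v
    rw [norm_mul, ← Complex.ofReal_mul, Complex.norm_exp_ofReal_mul_I, one_mul]
  refine ⟨A, hA0, fun x y hxy => ?_⟩
  have h1 : (μ : Measure ℝ).real (Set.Iic y) - (μ : Measure ℝ).real (Set.Iic x) = (μ : Measure ℝ).real (Set.Ioc x y) := by
    rw [← Set.Iic_union_Ioc_eq_Iic hxy, measureReal_union (Set.Iic_disjoint_Ioc le_rfl) measurableSet_Ioc]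
    ring
  rw [h1]
  have h2 : (μ : Measure ℝ) (Set.Ioc x y) ≤ ENNReal.ofReal (A * (y - x)) := by
    rw [hw, withDensity_apply _ measurableSet_Ioc]
    calc ∫⁻ a in Set.Ioc x y, ENNReal.ofReal (Pool.Agent.H383.ED.G (Pool.Agent.H383.ED.Ps (μ : Measure ℝ)) a).re
        ≤ ∫⁻ a in Set.Ioc x y, ENNReal.ofReal A := by
          apply lintegral_mono
          intro a
          exact ENNReal.ofReal_le_ofReal (hb a)
      _ = ENNReal.ofReal (A * (y - x)) := by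
          rw [setLIntegral_const, Real.volume_Ioc, ENNReal.ofReal_mul hA0]
  unfold Measure.real
  exact ENNReal.toReal_le_of_le_ofReal (mul_nonneg hA0 (by linarith)) h2

/-- **the rate** -/
theorem rate {af : ℕ → ℝ} (ha : Bd af) {φ X : ℝ} {κ : ℕ} (hκ : 0 < κ) {e : ℕ → ℝ}
    (hl2 : ∃ C : ℝ, 0 < C ∧ ∃ N0 : ℕ, ∀ N : ℕ, N0 ≤ N → ∀ M : ℕ, 1 ≤ M → (M:ℝ) ≤ (N:ℝ) ^ (1/200:ℝ) →
      ∑ n ∈ range N, (e n - U af φ (X + n * √(κ:ℝ)) M)^2 ≤ C * (Tl M + (N:ℝ) ^ (-(1/100):ℝ)) * N)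
    (hbk : ∀ κ' : ℝ, κ' < 3/4 → BK af κ') {F : ℝ → ℝ} {A : ℝ} (hA : 0 ≤ A)
    (hF : ∀ x y : ℝ, x ≤ y → F y - F x ≤ A * (y - x))
    (hcdf : ∀ η : ℝ, 0 < η → ∃ N0 : ℕ, ∀ N : ℕ, N0 ≤ N → ∀ x : ℝ, |cdf e N x - F x| ≤ η)
    {δ : ℝ} (hδ : 0 < δ) :
    ∃ N0 : ℕ, ∀ N : ℕ, N0 ≤ N → ∀ x : ℝ, |cdf e N x - F x| ≤ (Real.log (Real.log N)) ^ (-(3/4) + δ) := by
  -- the exponents
  set q : ℝ := 3/4 - min δ (1/8) / 2 with hq
  have hmin0 : 0 < min δ (1/8) := lt_min hδ (by norm_num)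
  have hmin1 : min δ (1/8) ≤ 1/8 := min_le_right _ _
  have hminδ : min δ (1/8) ≤ δ := min_le_left _ _
  have hq1 : 1/2 < q := by rw [hq]; linarith
  have hq2 : q < 3/4 := by rw [hq]; linarith
  have hq0 : 0 < q := by linarith
  set p : ℝ := 1/q with hp
  have hqp : 1/p = q := by rw [hp, one_div_one_div]
  have hp1 : 1 ≤ p := by rw [hp, le_div_iff₀ hq0]; linarith
  have hp2 : p ≤ 2 := by rw [hp, div_le_iff₀ hq0]; linarith
  have hpp : 1 < ((q + 3/4)/2) * p := by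
    rw [hp, mul_one_div, lt_div_iff₀ hq0]; linarith
  obtain ⟨C, θ, hC, hθ, hθ1, K0, hcd⟩ := char_diff ha hκ (φ := φ) (X := X) (e := e) hl2 (κ' := (q + 3/4)/2) (by linarith)
    (hbk _ (by linarith)) hp1 hp2 hpp
  rw [hqp] at hcd
  obtain ⟨C1, hC1, hsm⟩ := smoothing
  set C3 : ℝ := (C1 * (2 * C + A + 2) + 1) / θ with hC3
  have hC30 : 0 < C3 := by positivity
  -- the bound in terms of K
  have hKb : ∀ K : ℕ, max K0 1 ≤ K → Even K → ∀ N : ℕ, Real.exp (Real.exp (4 * K)) ≤ N → ∀ x : ℝ,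
      |cdf e N x - F x| ≤ C3 / (K:ℝ) ^ q := by
    intro K hK hKe N hN x
    have hK1 : 1 ≤ K := (le_max_right _ _).trans hK
    have hKr : (1:ℝ) ≤ K := by exact_mod_cast hK1
    have hKq0 : 0 < (K:ℝ) ^ q := by positivity
    set T : ℝ := θ * (K:ℝ) ^ q with hT
    have hT0 : 0 < T := by positivity
    obtain ⟨N1, hN1⟩ := hcdf (1/T) (by positivity)
    obtain ⟨N', hN'⟩ := exists_nat_ge (max (N1:ℝ) (Real.exp (Real.exp (4 * K))))
    have hN'1 : N1 ≤ N' := by exact_mod_cast (le_max_left _ _).trans hN'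
    have hN'2 : Real.exp (Real.exp (4 * K)) ≤ N' := (le_max_right _ _).trans hN'
    obtain ⟨hT1, hchar⟩ := hcd K ((le_max_left _ _).trans hK) hKe N N' hN hN'2
    have hlip : ∀ x y : ℝ, x ≤ y → cdf e N' y - cdf e N' x ≤ A * (y - x) + 2 * (1/T) := by
      intro x y hxy
      have h1 := (abs_le.mp (hN1 N' hN'1 y)).2
      have h2 := (abs_le.mp (hN1 N' hN'1 x)).1
      have h3 := hF x y hxy
      linarith
    have hsmall := smooth_small (e := e) (N := N) (N' := N') hT0 (Ξ := C / (K:ℝ)^5) (by positivity) hchar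
    have key := hsm (cdf e N) (cdf e N') A (2 * (1/T)) (2 * (C / (K:ℝ)^5) * T) T (cdf_mono e N) (cdf_mono e N') (cdf_01 e N)
      (cdf_01 e N') hA (by positivity) hT0 hlip hsmall x
    have h5 := hN1 N' hN'1 x
    -- T^2 ≤ K^5 / ...
    have hTT : C / (K:ℝ)^5 * T ≤ C * (1/T) := by
      have h6 : T * T ≤ (K:ℝ)^5 := by
        have hTK : T ≤ K := by
          have g1 : (K:ℝ) ^ q ≤ K := by
            calc (K:ℝ) ^ q ≤ (K:ℝ) ^ (1:ℝ) := Real.rpow_le_rpow_of_exponent_le hKr (by linarith)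
              _ = K := Real.rpow_one _
          exact le_trans (by rw [hT]; exact mul_le_of_le_one_left hKq0.le hθ1) g1
        calc T * T ≤ K * K := mul_le_mul hTK hTK hT0.le (by positivity)
          _ = (K:ℝ)^2 := by ring
          _ ≤ (K:ℝ)^5 := pow_le_pow_right₀ hKr (by norm_num)
      rw [div_mul_eq_mul_div, mul_one_div, div_le_div_iff₀ (by positivity) hT0, mul_assoc]
      exact mul_le_mul_of_nonneg_left h6 hC.le
    have h7 : |cdf e N x - F x| ≤ C1 * (2 * (C / (K:ℝ)^5) * T + A / T + 2 * (1/T)) + 1/T := by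
      calc |cdf e N x - F x| = |(cdf e N x - cdf e N' x) + (cdf e N' x - F x)| := by ring_nf
        _ ≤ |cdf e N x - cdf e N' x| + |cdf e N' x - F x| := abs_add_le _ _
        _ ≤ _ := add_le_add key h5
    refine h7.trans ?_
    have h8 : 2 * (C / (K:ℝ)^5) * T ≤ 2 * (C * (1/T)) := by
      have : 2 * (C / (K:ℝ)^5) * T = 2 * (C / (K:ℝ)^5 * T) := by ring
      rw [this]
      exact mul_le_mul_of_nonneg_left hTT (by norm_num)
    calc C1 * (2 * (C / (K:ℝ)^5) * T + A / T + 2 * (1/T)) + 1/T ≤ C1 * (2 * (C * (1/T)) + A / T + 2 * (1/T)) + 1/T := by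
          have := mul_le_mul_of_nonneg_left h8 hC1.le
          linarith
      _ = (C1 * (2 * C + A + 2) + 1) / T := by ring
      _ = C3 / (K:ℝ) ^ q := by rw [hC3, hT]; field_simp
  -- the choice of K
  have hy : Tendsto (fun N : ℕ => Real.log (Real.log N)) atTop atTop :=
    Real.tendsto_log_atTop.comp (Real.tendsto_log_atTop.comp tendsto_natCast_atTop_atTop)
  have hfin : Tendsto (fun N : ℕ => (Real.log (Real.log N)) ^ (q - (3/4 - δ))) atTop atTop := by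
    apply (tendsto_rpow_atTop _).comp hy
    rw [hq]; linarith
  have ev := ((hy.eventually_ge_atTop (16 + 8 * (max K0 1 : ℕ))).and (hfin.eventually_ge_atTop (8 * C3))).and (eventually_ge_atTop 1)
  obtain ⟨N0, hN0⟩ := Filter.eventually_atTop.mp ev
  refine ⟨N0, fun N hN x => ?_⟩
  obtain ⟨⟨h1, h2⟩, h3⟩ := hN0 N hN
  set y : ℝ := Real.log (Real.log N) with hyd
  have hmx : (1:ℝ) ≤ ((max K0 1 : ℕ):ℝ) := by exact_mod_cast le_max_right K0 1
  have hy16 : 24 ≤ y := by linarith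
  have hy0 : 0 < y := by linarith
  set K : ℕ := 2 * ⌊y/8⌋₊ with hK
  have hfl : (⌊y/8⌋₊ : ℝ) ≤ y/8 := Nat.floor_le (by positivity)
  have hfl2 : y/8 < (⌊y/8⌋₊ : ℝ) + 1 := Nat.lt_floor_add_one _
  have hKr : (K:ℝ) = 2 * (⌊y/8⌋₊ : ℝ) := by rw [hK]; push_cast; rfl
  have hK4 : 4 * (K:ℝ) ≤ y := by rw [hKr]; linarith
  have hK8 : y/8 ≤ K := by rw [hKr]; linarith
  have hKK : max K0 1 ≤ K := by
    have : ((max K0 1 : ℕ):ℝ) ≤ K := by linarith
    exact_mod_cast this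
  have hNexp : Real.exp (Real.exp (4 * K)) ≤ N := by
    have hNr : (1:ℝ) ≤ N := by exact_mod_cast h3
    have hlog0 : 0 ≤ Real.log N := Real.log_nonneg hNr
    have hlogpos : 0 < Real.log N := by
      rcases hlog0.eq_or_lt with h | h
      · rw [hyd, ← h, Real.log_zero] at hy0
        exact absurd hy0 (lt_irrefl _)
      · exact h
    have e1 : Real.exp (4 * K) ≤ Real.log N := by
      rw [← Real.exp_log hlogpos]
      exact Real.exp_le_exp.mpr hK4
    calc Real.exp (Real.exp (4 * K)) ≤ Real.exp (Real.log N) := Real.exp_le_exp.mpr e1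
      _ = N := Real.exp_log (by linarith)
  have hb := hKb K hKK ⟨⌊y/8⌋₊, by rw [hK]; ring⟩ N hNexp x
  refine hb.trans ?_
  have h4 : (y/8) ^ q ≤ (K:ℝ) ^ q := Real.rpow_le_rpow (by positivity) hK8 hq0.le
  have h5 : y ^ q / 8 ≤ (y/8) ^ q := by
    rw [Real.div_rpow hy0.le (by norm_num)]
    apply div_le_div_of_nonneg_left (by positivity) (by positivity)
    calc (8:ℝ) ^ q ≤ (8:ℝ) ^ (1:ℝ) := Real.rpow_le_rpow_of_exponent_le (by norm_num) (by linarith)
      _ = 8 := Real.rpow_one _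
  have hyq : 0 < y ^ q := by positivity
  calc C3 / (K:ℝ) ^ q ≤ C3 / (y ^ q / 8) := by
        apply div_le_div_of_nonneg_left hC30.le (by positivity)
        linarith
    _ = 8 * C3 / y ^ q := by field_simp
    _ ≤ y ^ (q - (3/4 - δ)) / y ^ q := by gcongr
    _ = y ^ (-(3/4) + δ) := by
        rw [← Real.rpow_sub hy0]
        congr 1; ring

end Pool.Agent.Y938.Dc
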