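import Mathlib
import Pool.Agent.Y938.Dc.E
import Pool.Agent.H383.DivF

/-!
# The rate of convergence in distribution along integer quadratics: circle and divisor problems
-/

open Filter Topology MeasureTheory Finset
open Pool.Agent.H387R2.Vor
open Pool.Agent.H383.AP Pool.Agent.H383.Gen Pool.Agent.H383.Gauss
open Pool.Agent.H425R3.JL (Data sum_Icc_range Ec circ_data Edv div_data)
open Pool.Agent.Y938.Pm

namespace Pool.Agent.Y938.Dc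

open Pool.Agent.H383 in
open Classical in
/-- the general statement -/
theorem quad_rate {Ex : ℝ → ℝ} {af : ℕ → ℝ} {φ : ℝ} {κ : ℕ → ℕ} {X : ℕ → ℝ → ℝ} (hD : Data Ex af φ κ X)
    (hbd : Pool.Agent.H452R2.Win.Bdw af) (hl : LB af) {a : ℕ} {b c : ℝ} (ha : 0 < a)
    (hP : ∀ n : ℕ, 0 < (a:ℝ) * (n:ℝ)^2 + b * n + c) {μ : ProbabilityMeasure ℝ}
    (hμ1 : ∀ f : ℝ → ℝ, Continuous f → (∃ C : ℝ, ∀ x : ℝ, |f x| ≤ C * (1 + x ^ 2)) → ∀ η : ℝ, 0 < η → ∃ N₀ : ℕ, ∀ N : ℕ, N₀ ≤ N →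
      |(∑ n ∈ Finset.range N, f (Ex ((a:ℝ) * (n:ℝ)^2 + b * n + c))) / N - ∫ x, f x ∂(μ : Measure ℝ)| ≤ η)
    (hμ2 : ∀ η : ℝ, 0 < η → ∃ N₀ : ℕ, ∀ N : ℕ, N₀ ≤ N → ∀ x : ℝ,
      |(((Finset.range N).filter (fun n : ℕ => Ex ((a:ℝ) * (n:ℝ)^2 + b * n + c) ≤ x)).card : ℝ) / N - (μ : Measure ℝ).real (Set.Iic x)| ≤ η)
    {δ : ℝ} (hδ : 0 < δ) :
    ∃ N₀ : ℕ, ∀ N : ℕ, N₀ ≤ N → ∀ x : ℝ,
      |(((Finset.range N).filter (fun n : ℕ => Ex ((a:ℝ) * (n:ℝ)^2 + b * n + c) ≤ x)).card : ℝ) / N - (μ : Measure ℝ).real (Set.Iic x)| ≤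
        (Real.log (Real.log N)) ^ (-(3/4) + δ) := by
  set e : ℕ → ℝ := fun n => Ex ((a:ℝ) * (n:ℝ)^2 + b * n + c) with he
  have hα : 0 < √(κ a:ℝ) := Real.sqrt_pos.mpr (by exact_mod_cast hD.pos a ha)
  have hLaw : Law2 e μ := by
    intro f hf hC
    rw [Metric.tendsto_atTop]
    intro η hη
    obtain ⟨N0, h⟩ := hμ1 f hf hC (η/2) (by positivity)
    refine ⟨N0, fun N hN => ?_⟩
    rw [Real.dist_eq]
    have := h N hN
    unfold rm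
    linarith
  have hcd : ∀ (N : ℕ) (x : ℝ), cdf e N x = (((Finset.range N).filter (fun n : ℕ => e n ≤ x)).card : ℝ) / N := by
    intro N x
    unfold cdf rm
    congr 1
    rw [← Finset.sum_filter, Finset.sum_const, nsmul_eq_mul, mul_one]
  obtain ⟨C, c', hC, hc', hdec⟩ := cdecay (p := 5/4) (hD.ap a b c ha hP) hLaw hbd hl hα (by norm_num) (by norm_num)
  obtain ⟨A, hA, hlip⟩ := lip_of_decay μ hc' (by norm_num) hC.le hdec
  obtain ⟨N0, h⟩ := rate hD.bd (hD.pos a ha) (hD.apq a b c ha hP) (fun κ' h => BK_of hbd h)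
    (F := fun x => (μ : Measure ℝ).real (Set.Iic x)) hA hlip (by
      intro η hη
      obtain ⟨N0, h⟩ := hμ2 η hη
      refine ⟨N0, fun N hN x => ?_⟩
      rw [hcd]
      exact h N hN x) hδ
  refine ⟨N0, fun N hN x => ?_⟩
  have := h N hN x
  rw [hcd] at this
  exact this

open Pool.Agent.H383 in
open Classical in
/-- the circle problem -/
theorem circ_rate {a : ℕ} {b c : ℝ} (ha : 0 < a) (hP : ∀ n : ℕ, 1 ≤ n → 0 < (a:ℝ) * (n:ℝ)^2 + b * n + c) :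
    ∃ (μ : ProbabilityMeasure ℝ) (g : ℂ → ℂ), Differentiable ℂ g ∧ (∀ x : ℝ, 0 ≤ (g x).re ∧ (g x).im = 0) ∧
      (μ : Measure ℝ) = volume.withDensity (fun x : ℝ => ENNReal.ofReal (g x).re) ∧
      (∀ u v : ℝ, u < v → 0 < (μ : Measure ℝ) (Set.Ioo u v)) ∧
      ∀ δ : ℝ, 0 < δ → ∃ N₀ : ℕ, ∀ N : ℕ, N₀ ≤ N → ∀ x : ℝ,
        |(((Finset.Icc 1 N).filter (fun n : ℕ => Ec ((a:ℝ) * (n:ℝ)^2 + b * n + c) ≤ x)).card : ℝ) / N
          - (μ : Measure ℝ).real (Set.Iic x)| ≤ (Real.log (Real.log N)) ^ (-(3/4) + δ) := by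
  set b' : ℝ := 2 * a + b with hb'
  set c' : ℝ := a + b + c with hc'
  have hsh : ∀ n : ℕ, (a:ℝ) * (n:ℝ)^2 + b' * n + c' = (a:ℝ) * ((n+1 : ℕ):ℝ)^2 + b * ((n+1 : ℕ):ℝ) + c := by
    intro n; simp only [hb', hc']; push_cast; ring
  have hP' : ∀ n : ℕ, 0 < (a:ℝ) * (n:ℝ)^2 + b' * n + c' := by
    intro n; rw [hsh]; exact hP (n+1) (by omega)
  have ha' : (0:ℝ) < a := by exact_mod_cast ha
  obtain ⟨μ, g, h1, h2, h3, h4, -, h6, h7, -⟩ := Pool.Agent.H383.Circ.distr3 ha' hP'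
  refine ⟨μ, g, h1, h2, h3, h4, fun δ hδ => ?_⟩
  have key := quad_rate circ_data Pool.Agent.H452R2.Win.ag_Bdw Pool.Agent.H383.Circ.ag_LB (a := a) (b := b') (c := c') ha hP' (μ := μ) (by
    intro f hf hC η hη
    obtain ⟨N0, h⟩ := h6 f hf hC 1 one_pos η hη
    refine ⟨N0, fun N hN => ?_⟩
    have := h N hN 0 (by rw [Nat.cast_zero, Real.zero_rpow (by norm_num)]; exact Nat.cast_nonneg _)
    rw [Nat.zero_add, ← Finset.range_eq_Ico] at this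
    exact this) (by
    intro η hη
    obtain ⟨N0, h⟩ := h7 1 one_pos η hη
    refine ⟨N0, fun N hN x => ?_⟩
    have := h N hN 0 (by rw [Nat.cast_zero, Real.zero_rpow (by norm_num)]; exact Nat.cast_nonneg _) x
    rw [Nat.zero_add, ← Finset.range_eq_Ico] at this
    exact this) hδ
  obtain ⟨N0, h⟩ := key
  refine ⟨N0, fun N hN x => ?_⟩
  have h5 := h N hN x
  simp only [hsh] at h5
  have e1 : (((Finset.Icc 1 N).filter (fun n : ℕ => Ec ((a:ℝ) * (n:ℝ)^2 + b * n + c) ≤ x)).card : ℝ) =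
      (((Finset.range N).filter (fun n : ℕ => Ec ((a:ℝ) * ((n+1 : ℕ):ℝ)^2 + b * ((n+1 : ℕ):ℝ) + c) ≤ x)).card : ℝ) := by
    rw [Finset.card_filter, Finset.card_filter, sum_Icc_range]
  rw [e1]
  exact h5

open Pool.Agent.H383 in
open Classical in
/-- the divisor problem -/
theorem div_rate {a : ℕ} {b c : ℝ} (ha : 0 < a) (hP : ∀ n : ℕ, 1 ≤ n → 0 < (a:ℝ) * (n:ℝ)^2 + b * n + c) :
    ∃ (μ : ProbabilityMeasure ℝ) (g : ℂ → ℂ), Differentiable ℂ g ∧ (∀ x : ℝ, 0 ≤ (g x).re ∧ (g x).im = 0) ∧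
      (μ : Measure ℝ) = volume.withDensity (fun x : ℝ => ENNReal.ofReal (g x).re) ∧
      (∀ u v : ℝ, u < v → 0 < (μ : Measure ℝ) (Set.Ioo u v)) ∧
      ∀ δ : ℝ, 0 < δ → ∃ N₀ : ℕ, ∀ N : ℕ, N₀ ≤ N → ∀ x : ℝ,
        |(((Finset.Icc 1 N).filter (fun n : ℕ => Edv ((a:ℝ) * (n:ℝ)^2 + b * n + c) ≤ x)).card : ℝ) / N
          - (μ : Measure ℝ).real (Set.Iic x)| ≤ (Real.log (Real.log N)) ^ (-(3/4) + δ) := by
  set b' : ℝ := 2 * a + b with hb'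
  set c' : ℝ := a + b + c with hc'
  have hsh : ∀ n : ℕ, (a:ℝ) * (n:ℝ)^2 + b' * n + c' = (a:ℝ) * ((n+1 : ℕ):ℝ)^2 + b * ((n+1 : ℕ):ℝ) + c := by
    intro n; simp only [hb', hc']; push_cast; ring
  have hP' : ∀ n : ℕ, 0 < (a:ℝ) * (n:ℝ)^2 + b' * n + c' := by
    intro n; rw [hsh]; exact hP (n+1) (by omega)
  have ha' : (0:ℝ) < a := by exact_mod_cast ha
  obtain ⟨μ, g, h1, h2, h3, h4, -, h6, h7, -⟩ := Pool.Agent.H383.Div.distr3 Pool.Agent.H383.Div.vor ha' hP'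
  refine ⟨μ, g, h1, h2, h3, h4, fun δ hδ => ?_⟩
  have key := quad_rate div_data Pool.Agent.H452R2.Win.ad_Bdw2 Pool.Agent.H383.Div.ad_LB (a := a) (b := b') (c := c') ha hP' (μ := μ) (by
    intro f hf hC η hη
    obtain ⟨N0, h⟩ := h6 f hf hC 1 one_pos η hη
    refine ⟨N0, fun N hN => ?_⟩
    have := h N hN 0 (by rw [Nat.cast_zero, Real.zero_rpow (by norm_num)]; exact Nat.cast_nonneg _)
    rw [Nat.zero_add, ← Finset.range_eq_Ico] at this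
    exact this) (by
    intro η hη
    obtain ⟨N0, h⟩ := h7 1 one_pos η hη
    refine ⟨N0, fun N hN x => ?_⟩
    have := h N hN 0 (by rw [Nat.cast_zero, Real.zero_rpow (by norm_num)]; exact Nat.cast_nonneg _) x
    rw [Nat.zero_add, ← Finset.range_eq_Ico] at this
    exact this) hδ
  obtain ⟨N0, h⟩ := key
  refine ⟨N0, fun N hN x => ?_⟩
  have h5 := h N hN x
  simp only [hsh] at h5
  have e1 : (((Finset.Icc 1 N).filter (fun n : ℕ => Edv ((a:ℝ) * (n:ℝ)^2 + b * n + c) ≤ x)).card : ℝ) =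
      (((Finset.range N).filter (fun n : ℕ => Edv ((a:ℝ) * ((n+1 : ℕ):ℝ)^2 + b * ((n+1 : ℕ):ℝ) + c) ≤ x)).card : ℝ) := by
    rw [Finset.card_filter, Finset.card_filter, sum_Icc_range]
  rw [e1]
  exact h5

end Pool.Agent.Y938.Dc
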